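import Mathlib
import Pool.Agent.Lib.MP_d90615_co.Mg.G003
import Pool.Agent.Lib.MP_d90615_co.Mg.G006
import Pool.Agent.Lib.MP_d90615_co.Mg.G007
import Pool.Agent.Lib.MP_d90615_co.Mg.G009

/-!
# The nine brackets (row b5 of extension (b))
-/

set_option autoImplicit false
set_option linter.unusedSectionVars false

namespace Pool.Agent.MJ

open Finset Polynomial Filter Topology

theorem Dom.mono {t : ℝ → ℝ} {v v' : ℝ} (h : Dom t v) (hv : v ≤ v') : Dom t v' := by
  obtain ⟨B, B', h1, h2, h3, h4⟩ := h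
  refine ⟨fun l => B l + (v' - v) * Real.exp (-(1 * l)),
    fun l => B' l + (v' - v) * (-1 * Real.exp (-(1 * l))), fun l hl =>
      (h1 l hl).add ((hasDerivAt_exp_lin 1 l).const_mul _), fun l hl => ?_, ?_, ?_⟩
  · have e1 := h2 l hl
    have e2 : 0 ≤ (v' - v) * Real.exp (-(1 * l)) :=
      mul_nonneg (by linarith) (Real.exp_pos _).le
    beta_reduce
    linarith
  · have e : Tendsto (fun l : ℝ => (v' - v) * Real.exp (-(1 * l))) atTop (𝓝 0) := by
      have := tendsto_poly_mul_exp (C (v' - v)) (r := 1) one_pos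
      simpa using this
    simpa using h3.add e
  · simp [h4]

/-- antitone with limit `0` -/
theorem nonneg_of_deriv {F F' : ℝ → ℝ} (hF : ∀ l, 0 ≤ l → HasDerivAt F (F' l) l)
    (hF' : ∀ l, 0 ≤ l → F' l ≤ 0) (hlim : Tendsto F atTop (𝓝 0)) : 0 ≤ F 0 := by
  have hanti : AntitoneOn F (Set.Ici 0) := by
    refine antitoneOn_of_deriv_nonpos (convex_Ici 0) ?_ ?_ ?_
    · exact fun l hl => (hF l hl).continuousAt.continuousWithinAt
    · intro l hl
      rw [interior_Ici] at hl
      exact (hF l (le_of_lt hl)).differentiableAt.differentiableWithinAt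
    · intro l hl
      rw [interior_Ici] at hl
      rw [(hF l (le_of_lt hl)).deriv]
      exact hF' l (le_of_lt hl)
  refine le_of_tendsto hlim ?_
  filter_upwards [eventually_ge_atTop (0 : ℝ)] with l hl
  exact hanti (Set.mem_Ici.2 le_rfl) (Set.mem_Ici.2 hl) hl

theorem anti_of_deriv {F F' : ℝ → ℝ} (hF : ∀ l, 0 ≤ l → HasDerivAt F (F' l) l)
    (hF' : ∀ l, 0 ≤ l → F' l ≤ 0) {l : ℝ} (hl : 0 ≤ l) : F l ≤ F 0 := by
  have hanti : AntitoneOn F (Set.Ici 0) := by
    refine antitoneOn_of_deriv_nonpos (convex_Ici 0) ?_ ?_ ?_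
    · exact fun l hl => (hF l hl).continuousAt.continuousWithinAt
    · intro l hl
      rw [interior_Ici] at hl
      exact (hF l (le_of_lt hl)).differentiableAt.differentiableWithinAt
    · intro l hl
      rw [interior_Ici] at hl
      rw [(hF l (le_of_lt hl)).deriv]
      exact hF' l (le_of_lt hl)
  exact hanti (Set.mem_Ici.2 le_rfl) (Set.mem_Ici.2 hl) hl

theorem exists_lim {H : ℝ → ℝ} {M : ℝ} (hm : MonotoneOn H (Set.Ici 0))
    (hb : ∀ l, 0 ≤ l → H l ≤ M) :
    ∃ L, Tendsto H atTop (𝓝 L) ∧ (∀ l, 0 ≤ l → H l ≤ L) ∧ L ≤ M := by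
  set H1 : ℝ → ℝ := fun l => H (max l 0) with hH1
  have hmono : Monotone H1 := fun u v huv =>
    hm (Set.mem_Ici.2 (le_max_right _ _)) (Set.mem_Ici.2 (le_max_right _ _))
      (max_le_max huv le_rfl)
  have hbdd : BddAbove (Set.range H1) := ⟨M, by
    rintro _ ⟨l, rfl⟩; exact hb _ (le_max_right _ _)⟩
  refine ⟨⨆ l, H1 l, ?_, fun l hl => ?_, ciSup_le fun l => hb _ (le_max_right _ _)⟩
  · refine (tendsto_atTop_ciSup hmono hbdd).congr' ?_
    filter_upwards [eventually_ge_atTop (0 : ℝ)] with l hl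
    simp [hH1, max_eq_left hl]
  · have := le_ciSup hbdd l
    simpa [hH1, max_eq_left hl] using this

/-- a convolution bound: `c g(s+t) ≤ α(s) β(t)` implies `c ∫ l g(l) ≤ ∫ α ∫ β` -/
theorem dom_conv {g α β A B : ℝ → ℝ} {c : ℝ} (hc : 0 < c) (hg : Continuous g)
    (hg0 : ∀ l, 0 ≤ l → 0 ≤ g l) (hα0 : ∀ l, 0 ≤ l → 0 ≤ α l) (hβ0 : ∀ l, 0 ≤ l → 0 ≤ β l)
    (hA : ∀ l, HasDerivAt A (-α l) l) (hB : ∀ l, HasDerivAt B (-β l) l)
    (hAl : Tendsto A atTop (𝓝 0)) (hBl : Tendsto B atTop (𝓝 0))
    (hαl : Tendsto (fun l => l * α l) atTop (𝓝 0))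
    (h : ∀ s t, 0 ≤ s → 0 ≤ t → c * g (s + t) ≤ α s * β t) :
    Dom (fun l => c * (l * g l)) (A 0 * B 0) := by
  have hBpos : ∀ l, 0 ≤ l → 0 ≤ B l := by
    intro l hl
    have := nonneg_of_deriv (F := fun t => B (l + t)) (F' := fun t => -β (l + t))
      (fun t _ => by
        exact ((hB (l + t)).comp t ((hasDerivAt_id t).const_add l)).congr_deriv (mul_one _))
      (fun t ht => by have := hβ0 (l + t) (by linarith); linarith)
      (hBl.comp (tendsto_atTop_add_const_left _ l tendsto_id))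
    simpa using this
  have hApos : ∀ l, 0 ≤ l → 0 ≤ A l := by
    intro l hl
    have := nonneg_of_deriv (F := fun t => A (l + t)) (F' := fun t => -α (l + t))
      (fun t _ => by
        exact ((hA (l + t)).comp t ((hasDerivAt_id t).const_add l)).congr_deriv (mul_one _))
      (fun t ht => by have := hα0 (l + t) (by linarith); linarith)
      (hAl.comp (tendsto_atTop_add_const_left _ l tendsto_id))
    simpa using this
  -- first primitive
  set H : ℝ → ℝ := fun l => ∫ t in (0 : ℝ)..l, g t with hH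
  have hHd : ∀ l, HasDerivAt H (g l) l := fun l =>
    intervalIntegral.integral_hasDerivAt_right (hg.intervalIntegrable _ _)
      hg.stronglyMeasurable.stronglyMeasurableAtFilter hg.continuousAt
  have hH0 : H 0 = 0 := by simp [hH]
  have hHm : MonotoneOn H (Set.Ici 0) := by
    refine monotoneOn_of_deriv_nonneg (convex_Ici 0)
      (fun l _ => (hHd l).continuousAt.continuousWithinAt)
      (fun l _ => (hHd l).differentiableAt.differentiableWithinAt) fun l hl => ?_
    rw [interior_Ici] at hl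
    rw [(hHd l).deriv]
    exact hg0 l (le_of_lt hl)
  obtain ⟨L1, hL1, hL1', -⟩ := exists_lim (M := α 0 * B 0 / c) hHm (fun l hl => by
    rw [le_div_iff₀ hc]
    have h1 := anti_of_deriv (F := fun l => α 0 * B l + c * H l)
      (F' := fun l => α 0 * -β l + c * g l)
      (fun l _ => ((hB l).const_mul _).add ((hHd l).const_mul _))
      (fun l hl => by
        have := h 0 l le_rfl hl
        rw [zero_add] at this
        linarith) hl
    beta_reduce at h1
    rw [hH0, mul_zero, add_zero] at h1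
    have h2 := mul_nonneg (hα0 0 le_rfl) (hBpos l hl)
    linarith)
  set G1 : ℝ → ℝ := fun l => L1 - H l with hG1
  have hG1d : ∀ l, HasDerivAt G1 (-g l) l := fun l => (hHd l).const_sub L1
  have hG1l : Tendsto G1 atTop (𝓝 0) := by
    have := (tendsto_const_nhds (x := L1)).sub hL1
    simpa [hG1] using this
  have hG1pos : ∀ l, 0 ≤ l → 0 ≤ G1 l := fun l hl => by
    have := hL1' l hl
    simp only [hG1]
    linarith
  have hG1b : ∀ s, 0 ≤ s → c * G1 s ≤ α s * B 0 := by
    intro s hs
    have := nonneg_of_deriv (F := fun t => α s * B t - c * G1 (s + t))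
      (F' := fun t => α s * -β t - c * -g (s + t))
      (fun t _ => ((hB t).const_mul _).sub ((((hG1d (s + t)).comp t
        ((hasDerivAt_id t).const_add s)).congr_deriv (mul_one _)).const_mul _))
      (fun t ht => by
        have := h s t hs ht
        linarith)
      (by
        have e1 := hBl.const_mul (α s)
        have e2 := (hG1l.comp (tendsto_atTop_add_const_left _ s tendsto_id)).const_mul c
        simpa using e1.sub e2)
    simp only [add_zero] at this
    linarith
  have hG1c : Continuous G1 := continuous_iff_continuousAt.2 fun l => (hG1d l).continuousAt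
  -- second primitive
  set K : ℝ → ℝ := fun l => ∫ t in (0 : ℝ)..l, G1 t with hK
  have hKd : ∀ l, HasDerivAt K (G1 l) l := fun l =>
    intervalIntegral.integral_hasDerivAt_right (hG1c.intervalIntegrable _ _)
      hG1c.stronglyMeasurable.stronglyMeasurableAtFilter hG1c.continuousAt
  have hK0 : K 0 = 0 := by simp [hK]
  have hKm : MonotoneOn K (Set.Ici 0) := by
    refine monotoneOn_of_deriv_nonneg (convex_Ici 0)
      (fun l _ => (hKd l).continuousAt.continuousWithinAt)
      (fun l _ => (hKd l).differentiableAt.differentiableWithinAt) fun l hl => ?_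
    rw [interior_Ici] at hl
    rw [(hKd l).deriv]
    exact hG1pos l (le_of_lt hl)
  obtain ⟨L0, hL0, -, hL0'⟩ := exists_lim (M := A 0 * B 0 / c) hKm (fun l hl => by
    rw [le_div_iff₀ hc]
    have h1 := anti_of_deriv (F := fun l => A l * B 0 + c * K l)
      (F' := fun l => -α l * B 0 + c * G1 l)
      (fun l _ => ((hA l).mul_const _).add ((hKd l).const_mul _))
      (fun l hl => by
        have := hG1b l hl
        linarith) hl
    beta_reduce at h1
    rw [hK0, mul_zero, add_zero] at h1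
    have h2 := mul_nonneg (hApos l hl) (hBpos 0 le_rfl)
    linarith)
  rw [le_div_iff₀ hc] at hL0'
  have hlG1 : Tendsto (fun l => c * (l * G1 l)) atTop (𝓝 0) := by
    refine tendsto_of_tendsto_of_tendsto_of_le_of_le' tendsto_const_nhds
      (h := fun l => (l * α l) * B 0) (by simpa using hαl.mul_const (B 0)) ?_ ?_
    · filter_upwards [eventually_ge_atTop (0 : ℝ)] with l hl
      exact mul_nonneg hc.le (mul_nonneg hl (hG1pos l hl))
    · filter_upwards [eventually_ge_atTop (0 : ℝ)] with l hl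
      have := mul_le_mul_of_nonneg_left (hG1b l hl) hl
      linarith
  have hdom : Dom (fun l => c * (l * g l)) (c * L0) := by
    refine ⟨fun l => c * (l * G1 l) + c * (L0 - K l),
      fun l => c * (1 * G1 l + l * -g l) + c * (-G1 l),
      fun l _ => ((((hasDerivAt_id l).mul (hG1d l))).const_mul c).add
        (((hKd l).const_sub L0).const_mul c),
      fun l _ => le_of_eq (by ring), ?_, by simp [hK0]⟩
    have e1 := ((tendsto_const_nhds (x := L0)).sub hL0).const_mul c
    have e2 := hlG1.add e1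
    simpa using e2
  exact hdom.mono (by linarith)

theorem ratio_anti {p q : ℝ[X]} {a : ℝ} (hq : ∀ u, a ≤ u → 0 < q.eval u)
    (h : ∀ u, a ≤ u → (derivative p).eval u * q.eval u ≤ p.eval u * (derivative q).eval u)
    {u v : ℝ} (hu : a ≤ u) (huv : u ≤ v) : p.eval v * q.eval u ≤ p.eval u * q.eval v := by
  have hd : ∀ l, a ≤ l → HasDerivAt (fun l => p.eval l / q.eval l)
      (((derivative p).eval l * q.eval l - p.eval l * (derivative q).eval l)
        / (q.eval l) ^ 2) l := fun l hl => (p.hasDerivAt l).div (q.hasDerivAt l) (hq l hl).ne'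
  have hanti : AntitoneOn (fun l => p.eval l / q.eval l) (Set.Ici a) := by
    refine antitoneOn_of_deriv_nonpos (convex_Ici a) ?_ ?_ ?_
    · exact fun l hl => (hd l hl).continuousAt.continuousWithinAt
    · intro l hl
      rw [interior_Ici] at hl
      exact (hd l (le_of_lt hl)).differentiableAt.differentiableWithinAt
    · intro l hl
      rw [interior_Ici] at hl
      rw [(hd l (le_of_lt hl)).deriv]
      refine div_nonpos_of_nonpos_of_nonneg ?_ (sq_nonneg _)
      have := h l (le_of_lt hl)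
      linarith
  have := hanti (Set.mem_Ici.2 hu) (Set.mem_Ici.2 (hu.trans huv)) huv
  simp only at this
  rwa [div_le_div_iff₀ (hq v (hu.trans huv)) (hq u hu)] at this

theorem logconc {p : ℝ[X]} {a : ℝ} (hpos : ∀ u, a ≤ u → 0 < p.eval u)
    (h : ∀ u, a ≤ u → p.eval u * (derivative (derivative p)).eval u ≤
      (derivative p).eval u ^ 2) {s t : ℝ} (hs : 0 ≤ s) (ht : 0 ≤ t) :
    p.eval a * p.eval (a + s + t) ≤ p.eval (a + s) * p.eval (a + t) := by
  have h1 : ∀ u v, a ≤ u → u ≤ v →
      (derivative p).eval v * p.eval u ≤ (derivative p).eval u * p.eval v :=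
    fun u v hu huv => ratio_anti hpos (fun u hu => by
      have := h u hu; nlinarith) hu huv
  have h2 := ratio_anti (p := p.comp (X + C s)) (q := p) (a := a) hpos (fun u hu => by
    have := h1 u (u + s) hu (by linarith)
    rw [derivative_comp]
    simp only [derivative_add, derivative_X, derivative_C, add_zero, eval_comp,
      eval_add, eval_X, eval_C, one_mul]
    linarith) (u := a) (v := a + t) le_rfl (by linarith)
  simp only [eval_comp, eval_add, eval_X, eval_C] at h2
  have e1 : a + t + s = a + s + t := by ring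
  rw [e1] at h2
  linarith

theorem gw_add_le {a s t : ℝ} (hs : 0 ≤ s) (ht : 0 ≤ t) : gw a (s + t) ≤ gw a s * gw a t := by
  unfold gw
  rw [← Real.exp_add]
  refine Real.exp_le_exp.2 ?_
  nlinarith [mul_nonneg hs ht]

theorem Dom.add {t t' : ℝ → ℝ} {v v' : ℝ} (h : Dom t v) (h' : Dom t' v') :
    Dom (fun l => t l + t' l) (v + v') := by
  obtain ⟨B, B', h1, h2, h3, h4⟩ := h
  obtain ⟨A, A', g1, g2, g3, g4⟩ := h'
  refine ⟨fun l => B l + A l, fun l => B' l + A' l, fun l hl => (h1 l hl).add (g1 l hl),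
    fun l hl => ?_, by simpa using h3.add g3, by simp [h4, g4]⟩
  have e1 := h2 l hl
  have e2 := g2 l hl
  beta_reduce
  linarith

theorem Dom.smul {t : ℝ → ℝ} {v c : ℝ} (hc : 0 ≤ c) (h : Dom t v) :
    Dom (fun l => c * t l) (c * v) := by
  obtain ⟨B, B', h1, h2, h3, h4⟩ := h
  refine ⟨fun l => c * B l, fun l => c * B' l, fun l hl => (h1 l hl).const_mul c,
    fun l hl => ?_, by simpa using h3.const_mul c, by simp [h4]⟩
  have e1 := mul_le_mul_of_nonneg_left (h2 l hl) hc
  beta_reduce
  linarith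

theorem pos_left {x y : ℝ} (h : 0 < x * y) (hy : 0 < y) : 0 < x := by
  by_contra hx
  push Not at hx
  exact absurd h (not_lt.2 (mul_nonpos_of_nonpos_of_nonneg hx hy.le))

theorem sum_fin4_poly (F : Finset (Fin 4) → ℝ[X]) : ∑ T ∈ univ.erase ∅, F T =
    (F {0} + F {1} + F {2} + F {3})
      + (F {0, 1} + F {0, 2} + F {0, 3} + F {1, 2} + F {1, 3} + F {2, 3})
      + (F {0, 1, 2} + F {0, 1, 3} + F {0, 2, 3} + F {1, 2, 3}) + F {0, 1, 2, 3} := by
  have h : (univ.erase ∅ : Finset (Finset (Fin 4))) =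
      {{0}, {1}, {2}, {3}, {0, 1}, {0, 2}, {0, 3}, {1, 2}, {1, 3}, {2, 3}, {0, 1, 2},
        {0, 1, 3}, {0, 2, 3}, {1, 2, 3}, {0, 1, 2, 3}} := by decide
  rw [h]
  repeat rw [Finset.sum_insert (by decide)]
  rw [Finset.sum_singleton]
  ring

/-- log-submodularity for all the pairs that occur -/
theorem subs (n : Finset (Fin 4) → ℝ) (hn : ∀ T, 0 < n T)
    (h4 : ∀ T i j, i ∉ T → j ∉ T → i ≠ j →
      n T * n (insert i (insert j T)) ≤ n (insert i T) * n (insert j T)) :
    (∀ i j : Fin 4, i ≠ j → n ∅ * n {i, j} ≤ n {i} * n {j}) ∧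
    (∀ i j k : Fin 4, i ≠ j → i ≠ k → j ≠ k → n ∅ * n {i, j, k} ≤ n {k} * n {i, j}) ∧
    n ∅ * n {0, 1, 2, 3} ≤ n {0, 1} * n {2, 3} := by
  have p2 : ∀ i j : Fin 4, i ≠ j → n ∅ * n {i, j} ≤ n {i} * n {j} := fun i j h =>
    h4 ∅ i j (by simp) (by simp) h
  have p3 : ∀ i j k : Fin 4, i ≠ j → i ≠ k → j ≠ k →
      n ∅ * n {i, j, k} ≤ n {k} * n {i, j} := by
    intro i j k hij hik hjk
    have a1 : n ∅ * n {j, k} ≤ n {j} * n {k} := p2 j k hjk
    have a2 : n {j} * n {i, k, j} ≤ n {i, j} * n {k, j} :=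
      h4 {j} i k (by simpa using hij) (by simpa using hjk.symm) hik
    have s1 : ({i, k, j} : Finset (Fin 4)) = {i, j, k} := by
      ext x; simp only [Finset.mem_insert, Finset.mem_singleton]; tauto
    have s2 : ({k, j} : Finset (Fin 4)) = {j, k} := by
      ext x; simp only [Finset.mem_insert, Finset.mem_singleton]; tauto
    rw [s1, s2] at a2
    exact Pool.Agent.Lib.MP_d90615_co.MJ.sub_chain (hn _) (hn _) (hn _) (hn _) (hn _) a1 a2
  refine ⟨p2, p3, ?_⟩
  have a1 : n {0} * n {1, 2, 0} ≤ n {1, 0} * n {2, 0} :=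
    h4 {0} 1 2 (by decide) (by decide) (by decide)
  have a2 : n {2, 0} * n {1, 3, 2, 0} ≤ n {1, 2, 0} * n {3, 2, 0} :=
    h4 {2, 0} 1 3 (by decide) (by decide) (by decide)
  have s1 : ({1, 3, 2, 0} : Finset (Fin 4)) = {0, 1, 2, 3} := by decide
  have s2 : ({3, 2, 0} : Finset (Fin 4)) = {0, 2, 3} := by decide
  have s3 : ({1, 0} : Finset (Fin 4)) = {0, 1} := by decide
  rw [s1, s2] at a2
  rw [s3] at a1
  have a3 : n {0} * n {0, 1, 2, 3} ≤ n {0, 1} * n {0, 2, 3} :=
    Pool.Agent.Lib.MP_d90615_co.MJ.sub_chain (a := n {0}) (b := n {2, 0}) (c := n {0, 1})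
      (d := n {0, 2, 3}) (e := n {1, 2, 0}) (f := n {0, 1, 2, 3}) (hn _) (hn _) (hn _) (hn _)
      (hn _) (by rw [mul_comm (n {2, 0})]; exact a1) (by rw [mul_comm (n {0, 2, 3})]; exact a2)
  have a4 : n ∅ * n {2, 3, 0} ≤ n {0} * n {2, 3} :=
    p3 2 3 0 (by decide) (by decide) (by decide)
  have s4 : ({2, 3, 0} : Finset (Fin 4)) = {0, 2, 3} := by decide
  rw [s4] at a4
  have := Pool.Agent.Lib.MP_d90615_co.MJ.sub_chain (a := n ∅) (b := n {0}) (c := n {2, 3})
    (d := n {0, 1}) (e := n {0, 2, 3}) (f := n {0, 1, 2, 3}) (hn _) (hn _) (hn _) (hn _) (hn _)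
    a4 a3
  rw [mul_comm (n {0, 1})]
  exact this

/-- pointwise bound, one variable -/
theorem pw1 {n0 nS0 x0 xS xS' xT : ℝ} (hx : 0 < x0) (hS' : 0 ≤ xS') (h0 : 0 ≤ n0)
    (hls : x0 * xT ≤ xS * xS') (hrat : xS * n0 ≤ nS0 * x0) : n0 * xT ≤ nS0 * xS' := by
  have h1 := mul_le_mul_of_nonneg_left hls h0
  have h2 := mul_le_mul_of_nonneg_right hrat hS'
  have h3 : (n0 * xT) * x0 ≤ (nS0 * xS') * x0 := by nlinarith
  exact le_of_mul_le_mul_right h3 hx

/-- pointwise bound, two variables -/
theorem pw2 {c0 y0 s0 t0 yS yS' yT sS tS' : ℝ} (hy : 0 < y0) (hs0 : 0 < s0) (ht0 : 0 < t0)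
    (hyS' : 0 ≤ yS') (hc : 0 ≤ c0) (hsS : 0 ≤ sS) (htS : 0 ≤ tS')
    (hls : y0 * yT ≤ yS * yS') (h1 : yS * s0 ≤ sS * y0) (h2 : yS' * t0 ≤ tS' * y0)
    (h3 : c0 * y0 ≤ s0 * t0) : c0 * yT ≤ sS * tS' := by
  have e1 : (yS * s0) * (yS' * t0) ≤ (sS * y0) * (tS' * y0) :=
    mul_le_mul h1 h2 (mul_nonneg hyS' ht0.le) (mul_nonneg hsS hy.le)
  have e2 := mul_le_mul_of_nonneg_left hls (mul_nonneg hc (mul_pos hs0 ht0).le)
  have e3 := mul_le_mul_of_nonneg_left e1 hc
  have e4 := mul_le_mul_of_nonneg_right h3 (mul_nonneg (mul_nonneg hsS htS) hy.le)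
  have e5 : (c0 * yT) * (y0 * (s0 * t0)) ≤ (sS * tS') * (y0 * (s0 * t0)) := by
    calc (c0 * yT) * (y0 * (s0 * t0)) = c0 * (s0 * t0) * (y0 * yT) := by ring
      _ ≤ c0 * (s0 * t0) * (yS * yS') := e2
      _ = c0 * ((yS * s0) * (yS' * t0)) := by ring
      _ ≤ c0 * ((sS * y0) * (tS' * y0)) := e3
      _ = (c0 * y0) * (sS * tS' * y0) := by ring
      _ ≤ (s0 * t0) * (sS * tS' * y0) := e4
      _ = _ := by ring
  exact le_of_mul_le_mul_right e5 (mul_pos hy (mul_pos hs0 ht0))

/-- **Row b5.** -/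
theorem b5 (N : Finset (Fin 4) → ℝ[X]) (f q12 q34 : ℝ[X]) (a : ℝ) (ha : 0 < a)
    (hf : derivative f = (C a + X) * f -
      X * (∑ S : Finset (Fin 4), (DD^[2 - (S ∩ {1, 3}).card] (N S))).comp (X + C a))
    (h12 : DD q12 = N {3} + N {2, 3}) (h34 : DD q34 = N {1} + N {0, 1})
    (hpos : ∀ S, (0 ∈ S ∨ 2 ∈ S) → ∀ u, a ≤ u → 0 < (N S).eval u)
    (hsub : ∀ S i j, i ∉ S → j ∉ S → i ≠ j → ∀ x, (N S).eval x *
      (N (insert i (insert j S))).eval x ≤ (N (insert i S)).eval x * (N (insert j S)).eval x)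
    (hmono : ∀ S i, i ∉ S → ∀ x, (derivative (N (insert i S))).eval x * (N S).eval x ≤
      (N (insert i S)).eval x * (derivative (N S)).eval x)
    (hlc : ∀ x, (N ∅).eval x * (derivative (derivative (N ∅))).eval x ≤
      (derivative (N ∅)).eval x ^ 2)
    (hZ : 0 ≤ f.eval 0)
    (hQ12 : 0 ≤ (N ∅).eval a + (N {2}).eval a + q12.eval a)
    (hQ34 : 0 ≤ (N ∅).eval a + (N {0}).eval a + q34.eval a) :
    (N ∅).eval a * f.eval 0 ≤ ((N ∅).eval a + (N {2}).eval a + q12.eval a) *
      ((N ∅).eval a + (N {0}).eval a + q34.eval a) := by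
  set c0 := (N ∅).eval a with hc0
  by_cases hc : 0 < c0
  swap
  · push Not at hc
    exact (mul_nonpos_of_nonpos_of_nonneg hc hZ).trans (mul_nonneg hQ12 hQ34)
  -- positivity
  have P0 : ∀ u, a ≤ u → 0 < (N ∅).eval u := by
    intro u hu
    have h := ratio_anti (p := -N ∅) (q := N {2}) (a := a) (hpos {2} (Or.inr (by simp)))
      (fun v _ => by
        have := hmono ∅ 2 (by simp) v
        simp only [insert_empty_eq] at this
        simp only [derivative_neg, eval_neg]
        linarith) (u := a) (v := u) le_rfl hu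
    simp only [eval_neg] at h
    have h2a := hpos {2} (Or.inr (by simp)) a le_rfl
    have h2u := hpos {2} (Or.inr (by simp)) u hu
    have h3 : 0 < (N ∅).eval u * (N {2}).eval a := by
      have := mul_pos hc h2u
      rw [hc0] at this
      linarith
    exact pos_left h3 h2a
  have P1 : ∀ u, a ≤ u → 0 < (N {1}).eval u := by
    intro u hu
    have h := hsub ∅ 1 2 (by simp) (by simp) (by decide) u
    simp only [insert_empty_eq] at h
    have h3 := mul_pos (P0 u hu) (hpos {1, 2} (Or.inr (by simp)) u hu)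
    exact pos_left (lt_of_lt_of_le h3 h) (hpos {2} (Or.inr (by simp)) u hu)
  have P3 : ∀ u, a ≤ u → 0 < (N {3}).eval u := by
    intro u hu
    have h := hsub ∅ 3 2 (by simp) (by simp) (by decide) u
    simp only [insert_empty_eq] at h
    have h3 := mul_pos (P0 u hu) (hpos {3, 2} (Or.inr (by simp)) u hu)
    exact pos_left (lt_of_lt_of_le h3 h) (hpos {2} (Or.inr (by simp)) u hu)
  have P13 : ∀ u, a ≤ u → 0 < (N {1, 3}).eval u := by
    intro u hu
    have h := hsub {1} 3 2 (by decide) (by decide) (by decide) u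
    have s1 : (insert 3 {1} : Finset (Fin 4)) = {1, 3} := by decide
    rw [s1] at h
    have h3 := mul_pos (P1 u hu) (hpos {3, 2, 1} (Or.inr (by simp)) u hu)
    exact pos_left (lt_of_lt_of_le h3 h) (hpos {2, 1} (Or.inr (by simp)) u hu)
  have P : ∀ S u, a ≤ u → 0 < (N S).eval u := by
    intro S u hu
    by_cases h : 0 ∈ S ∨ 2 ∈ S
    · exact hpos S h u hu
    · have hS : S = ∅ ∨ S = {1} ∨ S = {3} ∨ S = {1, 3} := by
        revert h; revert S; decide
      rcases hS with h | h | h | h <;> rw [h]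
      exacts [P0 u hu, P1 u hu, P3 u hu, P13 u hu]
  -- ratios
  have rs : ∀ S i, i ∉ S → ∀ u v, a ≤ u → u ≤ v →
      (N (insert i S)).eval v * (N S).eval u ≤ (N (insert i S)).eval u * (N S).eval v :=
    fun S i hi u v hu huv => ratio_anti (P S) (fun w _ => hmono S i hi w) hu huv
  have rat1 : ∀ i : Fin 4, ∀ u v, a ≤ u → u ≤ v →
      (N {i}).eval v * (N ∅).eval u ≤ (N {i}).eval u * (N ∅).eval v := by
    intro i u v hu huv
    have := rs ∅ i (by simp) u v hu huv
    simpa using this
  have rat2 : ∀ i j : Fin 4, i ≠ j → ∀ u v, a ≤ u → u ≤ v →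
      (N {i, j}).eval v * (N ∅).eval u ≤ (N {i, j}).eval u * (N ∅).eval v := by
    intro i j hij u v hu huv
    have h1 := rs {j} i (by simpa using hij) u v hu huv
    have h2 := rat1 j u v hu huv
    have p1 := P {j} u hu
    have p2 := P {j} v (hu.trans huv)
    have p3 := P {i, j} u hu
    have p4 := P {i, j} v (hu.trans huv)
    have p5 := P ∅ u hu
    have p6 := P ∅ v (hu.trans huv)
    have h3 := mul_le_mul h1 h2 (mul_pos p2 p5).le (mul_pos p3 p2).le
    have h4 : ((N {i, j}).eval v * (N ∅).eval u) * ((N {j}).eval u * (N {j}).eval v)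
        ≤ ((N {i, j}).eval u * (N ∅).eval v) * ((N {j}).eval u * (N {j}).eval v) := by
      nlinarith
    exact le_of_mul_le_mul_right h4 (mul_pos p1 p2)
  have ls := fun u (hu : a ≤ u) => subs (fun S => (N S).eval u) (fun S => P S u hu)
    (fun S i j hi hj hij => hsub S i j hi hj hij u)
  have hlog : ∀ s t, 0 ≤ s → 0 ≤ t →
      c0 * (N ∅).eval (a + s + t) ≤ (N ∅).eval (a + s) * (N ∅).eval (a + t) :=
    fun s t hs ht => logconc P0 (fun u _ => hlc u) hs ht
  -- two-variable bounds
  have two : ∀ S S' T : Finset (Fin 4),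
      (∀ u, a ≤ u → (N ∅).eval u * (N T).eval u ≤ (N S).eval u * (N S').eval u) →
      (∀ u v, a ≤ u → u ≤ v → (N S).eval v * (N ∅).eval u ≤ (N S).eval u * (N ∅).eval v) →
      (∀ u v, a ≤ u → u ≤ v → (N S').eval v * (N ∅).eval u ≤ (N S').eval u * (N ∅).eval v) →
      ∀ s t, 0 ≤ s → 0 ≤ t → c0 * Wp a (N T) (s + t) ≤ Wp a (N S) s * Wp a (N S') t := by
    intro S S' T h1 h2 h3 s t hs ht
    have hu : a ≤ a + s + t := by linarith
    have hb := pw2 (P ∅ _ hu) (P ∅ (a + s) (by linarith)) (P ∅ (a + t) (by linarith))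
      (P S' _ hu).le hc.le (P S (a + s) (by linarith)).le
      (P S' (a + t) (by linarith)).le (h1 _ hu) (h2 _ _ (by linarith) (by linarith))
      (h3 _ _ (by linarith) (by linarith)) (hlog s t hs ht)
    have hg := gw_add_le (a := a) hs ht
    unfold Wp
    have e : a + (s + t) = a + s + t := by ring
    rw [e]
    calc c0 * (gw a (s + t) * (N T).eval (a + s + t))
        = gw a (s + t) * (c0 * (N T).eval (a + s + t)) := by ring
      _ ≤ gw a (s + t) * ((N S).eval (a + s) * (N S').eval (a + t)) :=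
        mul_le_mul_of_nonneg_left hb (gw_pos _ _).le
      _ ≤ (gw a s * gw a t) * ((N S).eval (a + s) * (N S').eval (a + t)) :=
        mul_le_mul_of_nonneg_right hg
          (mul_pos (P S _ (by linarith)) (P S' _ (by linarith))).le
      _ = _ := by ring
  -- one-variable bounds
  have one : ∀ S S' T : Finset (Fin 4),
      (∀ u, a ≤ u → (N ∅).eval u * (N T).eval u ≤ (N S).eval u * (N S').eval u) →
      (∀ u v, a ≤ u → u ≤ v → (N S).eval v * (N ∅).eval u ≤ (N S).eval u * (N ∅).eval v) →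
      ∀ l, 0 ≤ l → c0 * Wp a (N T) l ≤ (N S).eval a * Wp a (N S') l := by
    intro S S' T h1 h2 l hl
    have hu : a ≤ a + l := by linarith
    have hb := pw1 (P ∅ _ hu) (P S' _ hu).le hc.le (h1 _ hu) (h2 a (a + l) le_rfl hu)
    unfold Wp
    calc c0 * (gw a l * (N T).eval (a + l)) = gw a l * (c0 * (N T).eval (a + l)) := by ring
      _ ≤ gw a l * ((N S).eval a * (N S').eval (a + l)) :=
        mul_le_mul_of_nonneg_left hb (gw_pos _ _).le
      _ = _ := by ring
  have WA : ∀ (p q : ℝ[X]) (l : ℝ), Wp a (p + q) l = Wp a p l + Wp a q l := by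
    intro p q l; unfold Wp; rw [eval_add]; ring
  have hWd := hasDerivAt_Wp a
  have hWl : ∀ p : ℝ[X], Tendsto (Wp a p) atTop (𝓝 0) := fun p => by
    have := tendsto_mul_Wp 1 p ha
    simpa using this
  have hWll : ∀ p : ℝ[X], Tendsto (fun l => l * Wp a p l) atTop (𝓝 0) := fun p => by
    have := tendsto_mul_Wp X p ha
    simpa using this
  -- the pieces
  have D0 : ∀ S, Dom (fun l => c0 * (l * Wp a (DD (DD (N S))) l)) (c0 * (N S).eval a) :=
    fun S => (dom_two ha (N S)).smul hc.le
  have Dq : ∀ q : ℝ[X], Dom (fun l => c0 * (l * Wp a (DD (DD q)) l)) (c0 * q.eval a) :=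
    fun q => (dom_two ha q).smul hc.le
  have Dmid : ∀ (p q : ℝ[X]) (r : ℝ), (∀ l, 0 ≤ l → c0 * Wp a p l ≤ r * Wp a (DD q) l) →
      Dom (fun l => c0 * (l * Wp a (DD p) l)) (r * q.eval a) := by
    intro p q r h
    refine ⟨fun l => c0 * (l * Wp a p l) + r * Wp a q l,
      fun l => c0 * (1 * Wp a p l + l * -Wp a (DD p) l) + r * -Wp a (DD q) l,
      fun l _ => (((hasDerivAt_id l).mul (hWd p l)).const_mul c0).add ((hWd q l).const_mul r),
      fun l hl => ?_, ?_, by simp [Wp_zero]⟩
    · have := h l hl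
      beta_reduce
      linarith
    · have e1 := (hWll p).const_mul c0
      have e2 := (hWl q).const_mul r
      simpa using e1.add e2
  have D4 : Dom (fun l => c0 * (l * Wp a (DD (N {1, 2} + N {0, 1, 2})) l))
      ((N {2}).eval a * q34.eval a) := by
    refine Dmid _ _ _ fun l hl => ?_
    rw [WA, h34, WA]
    have e1 := one {2} {1} {1, 2} (fun u hu => by
      have := (ls u hu).1 1 2 (by decide)
      linarith) (rat1 2) l hl
    have e2 := one {2} {0, 1} {0, 1, 2} (fun u hu => by
      have := (ls u hu).2.1 0 1 2 (by decide) (by decide) (by decide)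
      linarith) (rat1 2) l hl
    linarith
  have D5 : Dom (fun l => c0 * (l * Wp a (DD (N {0, 3} + N {0, 2, 3})) l))
      ((N {0}).eval a * q12.eval a) := by
    refine Dmid _ _ _ fun l hl => ?_
    rw [WA, h12, WA]
    have e1 := one {0} {3} {0, 3} (fun u hu => by
      have := (ls u hu).1 0 3 (by decide)
      linarith) (rat1 0) l hl
    have e2 := one {0} {2, 3} {0, 2, 3} (fun u hu => by
      have := (ls u hu).2.1 2 3 0 (by decide) (by decide) (by decide)
      have s4 : ({2, 3, 0} : Finset (Fin 4)) = {0, 2, 3} := by decide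
      rw [s4] at this
      linarith) (rat1 0) l hl
    linarith
  have D6 : Dom (fun l => c0 * (l * Wp a (N {1, 3} + N {0, 1, 3} + N {1, 2, 3}
      + N {0, 1, 2, 3}) l)) (q12.eval a * q34.eval a) := by
    have h := dom_conv (g := Wp a (N {1, 3} + N {0, 1, 3} + N {1, 2, 3} + N {0, 1, 2, 3}))
      (α := Wp a (DD q12)) (β := Wp a (DD q34)) (A := Wp a q12) (B := Wp a q34) hc
      (continuous_iff_continuousAt.2 fun l => (hWd _ l).continuousAt)
      (fun l hl => by
        rw [WA, WA, WA]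
        have hu : a ≤ a + l := by linarith
        have g := gw_pos a l
        unfold Wp
        have := mul_pos g (P {1, 3} _ hu)
        have := mul_pos g (P {0, 1, 3} _ hu)
        have := mul_pos g (P {1, 2, 3} _ hu)
        have := mul_pos g (P {0, 1, 2, 3} _ hu)
        linarith)
      (fun l hl => by
        rw [h12, WA]
        have hu : a ≤ a + l := by linarith
        have g := gw_pos a l
        unfold Wp
        have := mul_pos g (P {3} _ hu)
        have := mul_pos g (P {2, 3} _ hu)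
        linarith)
      (fun l hl => by
        rw [h34, WA]
        have hu : a ≤ a + l := by linarith
        have g := gw_pos a l
        unfold Wp
        have := mul_pos g (P {1} _ hu)
        have := mul_pos g (P {0, 1} _ hu)
        linarith)
      (hWd q12) (hWd q34) (hWl q12) (hWl q34) (hWll _)
      (fun s t hs ht => by
        rw [WA, WA, WA, h12, h34, WA, WA]
        have e1 := two {3} {1} {1, 3} (fun u hu => by
          have := (ls u hu).1 1 3 (by decide)
          linarith) (rat1 3) (rat1 1) s t hs ht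
        have e2 := two {3} {0, 1} {0, 1, 3} (fun u hu => by
          have := (ls u hu).2.1 0 1 3 (by decide) (by decide) (by decide)
          linarith) (rat1 3) (rat2 0 1 (by decide)) s t hs ht
        have e3 := two {2, 3} {1} {1, 2, 3} (fun u hu => by
          have := (ls u hu).2.1 2 3 1 (by decide) (by decide) (by decide)
          have s4 : ({2, 3, 1} : Finset (Fin 4)) = {1, 2, 3} := by decide
          rw [s4] at this
          linarith) (rat2 2 3 (by decide)) (rat1 1) s t hs ht
        have e4 := two {2, 3} {0, 1} {0, 1, 2, 3} (fun u hu => by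
          have := (ls u hu).2.2
          linarith) (rat2 2 3 (by decide)) (rat2 0 1 (by decide)) s t hs ht
        linarith)
    simpa [Wp_zero] using h
  have D02 : c0 * (N {0, 2}).eval a ≤ (N {0}).eval a * (N {2}).eval a :=
    (ls a le_rfl).1 0 2 (by decide)
  have hD := ((((((((D0 ∅).add (D0 {0})).add (D0 {2})).add ((D0 {0, 2}).mono D02)).add
    (Dq q34)).add (Dq q12)).add D4).add D5).add D6
  have hsumS : ∑ S : Finset (Fin 4), (DD^[2 - (S ∩ {1, 3}).card] (N S)) =
      DD (DD (N ∅)) + DD (DD (N {0})) + DD (DD (N {2})) + DD (DD (N {0, 2}))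
      + DD (N {1} + N {0, 1}) + DD (N {3} + N {2, 3})
      + DD (N {1, 2} + N {0, 1, 2}) + DD (N {0, 3} + N {0, 2, 3})
      + (N {1, 3} + N {0, 1, 3} + N {1, 2, 3} + N {0, 1, 2, 3}) := by
    have hDD : ∀ p q : ℝ[X], DD (p + q) = DD p + DD q := by
      intro p q; unfold DD; rw [derivative_add]; ring
    rw [← add_sum_erase univ _ (mem_univ ∅), sum_fin4_poly]
    simp only [hDD]
    have c0' : ((∅ : Finset (Fin 4)) ∩ {1, 3}).card = 0 := by decide
    have c1 : (({0} : Finset (Fin 4)) ∩ {1, 3}).card = 0 := by decide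
    have c2 : (({1} : Finset (Fin 4)) ∩ {1, 3}).card = 1 := by decide
    have c3 : (({2} : Finset (Fin 4)) ∩ {1, 3}).card = 0 := by decide
    have c4 : (({3} : Finset (Fin 4)) ∩ {1, 3}).card = 1 := by decide
    have c5 : (({0, 1} : Finset (Fin 4)) ∩ {1, 3}).card = 1 := by decide
    have c6 : (({0, 2} : Finset (Fin 4)) ∩ {1, 3}).card = 0 := by decide
    have c7 : (({0, 3} : Finset (Fin 4)) ∩ {1, 3}).card = 1 := by decide
    have c8 : (({1, 2} : Finset (Fin 4)) ∩ {1, 3}).card = 1 := by decide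
    have c9 : (({1, 3} : Finset (Fin 4)) ∩ {1, 3}).card = 2 := by decide
    have c10 : (({2, 3} : Finset (Fin 4)) ∩ {1, 3}).card = 1 := by decide
    have c11 : (({0, 1, 2} : Finset (Fin 4)) ∩ {1, 3}).card = 1 := by decide
    have c12 : (({0, 1, 3} : Finset (Fin 4)) ∩ {1, 3}).card = 2 := by decide
    have c13 : (({0, 2, 3} : Finset (Fin 4)) ∩ {1, 3}).card = 1 := by decide
    have c14 : (({1, 2, 3} : Finset (Fin 4)) ∩ {1, 3}).card = 2 := by decide
    have c15 : (({0, 1, 2, 3} : Finset (Fin 4)) ∩ {1, 3}).card = 2 := by decide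
    rw [c0', c1, c2, c3, c4, c5, c6, c7, c8, c9, c10, c11, c12, c13, c14, c15]
    simp only [Nat.sub_zero, Nat.sub_self, Function.iterate_succ, Function.iterate_zero,
      Function.comp, id, show 2 - 1 = 1 from rfl]
    ring
  have hle := hD.le (F := fun l => c0 * (gw a l * f.eval l))
    (F' := fun l => c0 * (-(a + l) * gw a l * f.eval l + gw a l * (derivative f).eval l))
    (fun l _ => ((hasDerivAt_gw a l).mul (f.hasDerivAt l)).const_mul c0)
    (fun l _ => by
      rw [hf, hsumS, ← h12, ← h34]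
      simp only [eval_sub, eval_mul, eval_add, eval_C, eval_X, eval_comp, Wp]
      rw [add_comm l a]
      ring)
    (by
      have := (tendsto_poly_mul_gw f ha).const_mul c0
      rw [mul_zero] at this
      exact this.congr fun l => by ring)
  simp only [gw_zero, one_mul] at hle
  refine hle.trans (le_of_eq ?_)
  ring

end Pool.Agent.MJ
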