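import Mathlib
import Pool.Agent.Lib.MP_d90615_co.Mg.G011
import Pool.Agent.Lib.MP_d90615_co.Mg.G012

/-!
Three classes; two ends in the first class: the inequality.
-/

set_option autoImplicit false
set_option linter.unusedSectionVars false

namespace Pool.Agent.MJ

open Finset Polynomial
open scoped Classical Topology
open Pool.Agent.PW (Z N N2 Ray cw pw mv)

section Cone2

/-- The inequality extends to nonnegative combinations of the marks. -/
lemma cone_two (E : ℝ[X] →ₗ[ℝ] ℝ) (l m0 m2 R1 R3 : ℝ[X]) {J1 J3 : Type*} [Fintype J1] [Fintype J3]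
    {κ1 : J1 → ℝ} {κ3 : J3 → ℝ} (hκ1 : ∀ j, 0 ≤ κ1 j) (hκ3 : ∀ j, 0 ≤ κ3 j)
    {M1 : J1 → ℝ[X]} {M3 : J3 → ℝ[X]} {c1 c3 : ℝ} (hc1 : 0 ≤ c1) (hc3 : 0 ≤ c3) (z : ℝ)
    (h : ∀ j1 j3, E (l * M1 j1 * M3 j3) * z ≤ E (m0 * M1 j1 * R3) * E (m2 * R1 * M3 j3))
    {m1 m3 : ℝ[X]} (hm1 : m1 = C c1 * ∑ j, C (κ1 j) * M1 j)
    (hm3 : m3 = C c3 * ∑ j, C (κ3 j) * M3 j) :
    E (l * m1 * m3) * z ≤ E (m0 * m1 * R3) * E (m2 * R1 * m3) := by
  have s3 : ∀ j1, E (l * M1 j1 * m3) * z ≤ E (m0 * M1 j1 * R3) * E (m2 * R1 * m3) := by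
    intro j1
    have h1 := cone_step (E (m0 * M1 j1 * R3) • (E.comp (LinearMap.mulLeft ℝ (m2 * R1))) -
      z • (E.comp (LinearMap.mulLeft ℝ (l * M1 j1)))) hκ3 (M := M3) hc3 (fun j3 => by
        have h2 := h j1 j3
        simp only [LinearMap.sub_apply, LinearMap.smul_apply, LinearMap.comp_apply,
          LinearMap.mulLeft_apply, smul_eq_mul]
        linarith)
    rw [← hm3] at h1
    simp only [LinearMap.sub_apply, LinearMap.smul_apply, LinearMap.comp_apply,
      LinearMap.mulLeft_apply, smul_eq_mul] at h1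
    linarith
  have h1 := cone_step (E (m2 * R1 * m3) • (E.comp (LinearMap.mulLeft ℝ (m0 * R3))) -
    z • (E.comp (LinearMap.mulLeft ℝ (l * m3)))) hκ1 (M := M1) hc1 (fun j1 => by
      have h2 := s3 j1
      simp only [LinearMap.sub_apply, LinearMap.smul_apply, LinearMap.comp_apply,
        LinearMap.mulLeft_apply, smul_eq_mul]
      rw [show l * m3 * M1 j1 = l * M1 j1 * m3 by ring,
        show m0 * R3 * M1 j1 = m0 * M1 j1 * R3 by ring]
      linarith)
  rw [← hm1] at h1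
  simp only [LinearMap.sub_apply, LinearMap.smul_apply, LinearMap.comp_apply,
    LinearMap.mulLeft_apply, smul_eq_mul] at h1
  rw [show l * m3 * m1 = l * m1 * m3 by ring, show m0 * R3 * m1 = m0 * m1 * R3 by ring] at h1
  linarith

end Cone2

section Pos3

lemma Af_cn {J : Type*} [Fintype J] (θ : J → ℝ) (hθ : ∀ i, 0 ≤ θ i) (i : J) :
    Af θ i = 0 ∨ Cn (∑ i, θ i) (∑ i, θ i) (sh (∑ i, θ i) (Af θ i)) := by
  rcases (hθ i).eq_or_lt with h | h
  · left
    unfold Af
    rw [← h, C_0, zero_mul]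
  · right
    unfold Af
    rw [sh_C_mul]
    exact Cn.smul h (Cn.base (Bs_Pf _ _ _ _ hθ
      (Finset.sum_le_univ_sum_of_nonneg hθ)))

/-- The evaluation of a product of three polynomials of the cones. -/
lemma three_nonneg {x0 x1 x2 : ℝ} {p0 p1 p2 : ℝ[X]} (h0 : p0 = 0 ∨ Cn x0 x0 (sh x0 p0))
    (h1 : p1 = 0 ∨ Cn x1 x1 (sh x1 p1)) (h2 : p2 = 0 ∨ Cn x2 x2 (sh x2 p2)) {u : ℝ}
    (hu : x0 + x1 + x2 ≤ u) :
    0 ≤ (T (-1) (T 1 (sh x0 p0) * T 1 (sh x1 p1) * T 1 (sh x2 p2))).eval u := by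
  have hz : ∀ (x : ℝ), T 1 (sh x (0 : ℝ[X])) = 0 := by
    intro x
    unfold sh
    rw [zero_comp, map_zero]
  rcases h0 with h0 | h0
  · rw [h0, hz, zero_mul, zero_mul, map_zero, eval_zero]
  rcases h1 with h1 | h1
  · rw [h1, hz, mul_zero, zero_mul, map_zero, eval_zero]
  rcases h2 with h2 | h2
  · rw [h2, hz, mul_zero, map_zero, eval_zero]
  have h3 := (Cn_pos (ι := Fin 3) ![x0, x1, x2] ![x0, x1, x2] u (fun k => by
    rw [Fin.sum_univ_three]
    simp only [Matrix.cons_val_zero, Matrix.cons_val_one, Matrix.cons_val]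
    linarith) ![sh x0 p0, sh x1 p1, sh x2 p2] (fun k => by
    fin_cases k
    · exact h0
    · exact h1
    · exact h2)).1
  unfold NN at h3
  rw [Fin.prod_univ_three] at h3
  exact h3.le

end Pos3

section Root

lemma sh_at1 {J : Type*} [Fintype J] (θ : J → ℝ) (j : J) :
    sh (∑ i, θ i) (Pf univ θ + Qf univ θ) = sh (∑ i, θ i) (gt1 θ j) +
      (X * sh (∑ i, θ i) (Af θ j) - derivative (sh (∑ i, θ i) (Af θ j))) :=
  sh_at (fun _ : Fin 4 => θ) (fun _ => j) 0

/-- The inequality for one root of the class of `b` and one root of the class of `d`. -/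
lemma root_ineq {J J' : Type*} [Fintype J] [Fintype J'] {L Ba Bc P2 : ℝ[X]} {x0 : ℝ}
    (hTM : TM L Ba Bc P2 x0) (hx0 : 0 ≤ x0) (θ1 : J → ℝ) (θ3 : J' → ℝ) (hθ1 : ∀ i, 0 ≤ θ1 i)
    (hθ3 : ∀ i, 0 ≤ θ3 i) {m0 m2 : ℝ[X]} (hm0 : X * m0 = T 1 (sh x0 (L + Ba)))
    (hm2 : X * m2 = T 1 (sh x0 (L + Bc))) {S : ℝ} (hS : S = x0 + ∑ i, θ1 i + ∑ i, θ3 i)
    (hQ12 : ∀ j1, 0 ≤ (T (-1) (m0 * T 1 (sh (∑ i, θ1 i) (Af θ1 j1)) *
      T 1 (sh (∑ i, θ3 i) (Pf univ θ3 + Qf univ θ3)))).eval S)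
    (hQ34 : ∀ j3, 0 ≤ (T (-1) (m2 * T 1 (sh (∑ i, θ1 i) (Pf univ θ1 + Qf univ θ1)) *
      T 1 (sh (∑ i, θ3 i) (Af θ3 j3)))).eval S)
    {f : ℝ[X]} (hf0 : 0 ≤ f.eval 0)
    (hf : derivative f = (C S + X) * f - X * (T (-1)
      (T 1 (sh x0 (L + Bc + Ba + P2)) * T 1 (sh (∑ i, θ1 i) (Pf univ θ1 + Qf univ θ1)) *
        T 1 (sh (∑ i, θ3 i) (Pf univ θ3 + Qf univ θ3)))).comp (X + C S))
    (j1 : J) (j3 : J') :
    (T (-1) (T 1 (sh x0 L) * T 1 (sh (∑ i, θ1 i) (Af θ1 j1)) *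
      T 1 (sh (∑ i, θ3 i) (Af θ3 j3)))).eval S * f.eval 0 ≤
    (T (-1) (m0 * T 1 (sh (∑ i, θ1 i) (Af θ1 j1)) *
      T 1 (sh (∑ i, θ3 i) (Pf univ θ3 + Qf univ θ3)))).eval S *
    (T (-1) (m2 * T 1 (sh (∑ i, θ1 i) (Pf univ θ1 + Qf univ θ1)) *
      T 1 (sh (∑ i, θ3 i) (Af θ3 j3)))).eval S := by
  have hz : ∀ (x : ℝ), T 1 (sh x (0 : ℝ[X])) = 0 := by
    intro x
    unfold sh
    rw [zero_comp, map_zero]
  rcases (hθ1 j1).eq_or_lt with h01 | h01
  · have : Af θ1 j1 = 0 := by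
      unfold Af
      rw [← h01, C_0, zero_mul]
    rw [this, hz, mul_zero, zero_mul, mul_zero, zero_mul, map_zero, eval_zero, zero_mul, zero_mul]
  rcases (hθ3 j3).eq_or_lt with h03 | h03
  · have : Af θ3 j3 = 0 := by
      unfold Af
      rw [← h03, C_0, zero_mul]
    rw [this, hz, mul_zero, mul_zero, map_zero, eval_zero, zero_mul, mul_zero]
  set N := N3 L Ba Bc P2 x0 θ1 j1 θ3 j3 with hN
  set l := T 1 (sh x0 L) with hl
  set ba := T 1 (sh x0 Ba) with hba
  set bc := T 1 (sh x0 Bc) with hbc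
  set p2 := T 1 (sh x0 P2) with hp2
  set M1 := T 1 (sh (∑ i, θ1 i) (Af θ1 j1)) with hM1
  set M3 := T 1 (sh (∑ i, θ3 i) (Af θ3 j3)) with hM3
  set H1 := T 1 (sh (∑ i, θ1 i) (gt1 θ1 j1)) with hH1
  set H3 := T 1 (sh (∑ i, θ3 i) (gt1 θ3 j3)) with hH3
  have hR1 : T 1 (sh (∑ i, θ1 i) (Pf univ θ1 + Qf univ θ1)) = H1 + X * M1 := by
    rw [sh_at1 θ1 j1, T_one_dec]
  have hR3 : T 1 (sh (∑ i, θ3 i) (Pf univ θ3 + Qf univ θ3)) = H3 + X * M3 := by
    rw [sh_at1 θ3 j3, T_one_dec]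
  have hX0 : X * m0 = l + ba := by
    rw [hm0, sh_add, map_add]
  have hX2 : X * m2 = l + bc := by
    rw [hm2, sh_add, map_add]
  have hTot : T 1 (sh x0 (L + Bc + Ba + P2)) = l + bc + ba + p2 := by
    rw [sh_add, sh_add, sh_add, map_add, map_add, map_add]
  -- the values of `N`
  have hNv : ∀ T' : Finset (Fin 4), N T' = T (-1) ((if 0 ∈ T' then (if 2 ∈ T' then p2 else bc)
      else (if 2 ∈ T' then ba else l)) * (if 1 ∈ T' then H1 else M1) *
        (if 3 ∈ T' then H3 else M3)) := by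
    intro T'
    rw [hN]
    unfold N3 NN
    rw [Fin.prod_univ_three]
    show T (-1) (T 1 (sh x0 (if 0 ∈ T' then (if 2 ∈ T' then P2 else Bc) else
      (if 2 ∈ T' then Ba else L))) * T 1 (sh (∑ i, θ1 i) (if 1 ∈ T' then gt1 θ1 j1 else A1 θ1 j1)) *
      T 1 (sh (∑ i, θ3 i) (if 3 ∈ T' then gt1 θ3 j3 else A1 θ3 j3))) = _
    congr 2
    · congr 1
      · split_ifs <;> rfl
      · split_ifs <;> rfl
    · split_ifs <;> rfl
  have hDD : ∀ p : ℝ[X], DD (T (-1) p) = T (-1) (X * p) := fun p => (T_neg_one_X p).symm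
  have e0 : N ∅ = T (-1) (l * M1 * M3) := by
    rw [hNv]
    simp
  have e2 : N {2} = T (-1) (ba * M1 * M3) := by
    rw [hNv]
    simp
  have e0' : N {0} = T (-1) (bc * M1 * M3) := by
    rw [hNv]
    simp
  have g12 : (N ∅).eval S + (N {2}).eval S + (T (-1) (m0 * M1 * H3)).eval S =
      (T (-1) (m0 * M1 * (H3 + X * M3))).eval S := by
    rw [e0, e2, ← eval_add, ← eval_add, ← map_add, ← map_add]
    congr 2
    linear_combination (-(M1 * M3)) * hX0
  have g34 : (N ∅).eval S + (N {0}).eval S + (T (-1) (m2 * H1 * M3)).eval S =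
      (T (-1) (m2 * (H1 + X * M1) * M3)).eval S := by
    rw [e0, e0', ← eval_add, ← eval_add, ← map_add, ← map_add]
    congr 2
    linear_combination (-(M1 * M3)) * hX2
  have hb := b5_N3 hTM hx0 θ1 j1 θ3 j3 hθ1 h01 hθ3 h03 N (fun _ => rfl) f
    (T (-1) (m0 * M1 * H3)) (T (-1) (m2 * H1 * M3)) S hS.symm ?_ ?_ ?_ hf0 ?_ ?_
  · -- the conclusion
    rw [g12, g34, e0] at hb
    rw [hR1, hR3]
    exact hb
  · rw [hf, hTot, hR1, hR3]
    congr 3
    rw [← add_sum_erase univ _ (mem_univ ∅), sum_fin4_poly]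
    have c0' : ((∅ : Finset (Fin 4)) ∩ {1, 3}).card = 0 := by decide
    have c1 : (({0} : Finset (Fin 4)) ∩ {1, 3}).card = 0 := by decide
    have c2 : (({1} : Finset (Fin 4)) ∩ {1, 3}).card = 1 := by decide
    have c3 : (({2} : Finset (Fin 4)) ∩ {1, 3}).card = 0 := by decide
    have c4 : (({3} : Finset (Fin 4)) ∩ {1, 3}).card = 1 := by decide
    have c5 : (({0, 1} : Finset (Fin 4)) ∩ {1, 3}).card = 1 := by decide
    have c6 : (({0, 2} : Finset (Fin 4)) ∩ {1, 3}).card = 0 := by decide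
    have c7 : (({0, 3} : Finset (Fin 4)) ∩ {1, 3}).card = 1 := by decide
    have c8 : (({1, 2} : Finset (Fin 4)) ∩ {1, 3}).card = 1 := by decide
    have c9 : (({1, 3} : Finset (Fin 4)) ∩ {1, 3}).card = 2 := by decide
    have c10 : (({2, 3} : Finset (Fin 4)) ∩ {1, 3}).card = 1 := by decide
    have c11 : (({0, 1, 2} : Finset (Fin 4)) ∩ {1, 3}).card = 1 := by decide
    have c12 : (({0, 1, 3} : Finset (Fin 4)) ∩ {1, 3}).card = 2 := by decide
    have c13 : (({0, 2, 3} : Finset (Fin 4)) ∩ {1, 3}).card = 1 := by decide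
    have c14 : (({1, 2, 3} : Finset (Fin 4)) ∩ {1, 3}).card = 2 := by decide
    have c15 : (({0, 1, 2, 3} : Finset (Fin 4)) ∩ {1, 3}).card = 2 := by decide
    rw [c0', c1, c2, c3, c4, c5, c6, c7, c8, c9, c10, c11, c12, c13, c14, c15]
    simp only [Nat.sub_zero, Nat.sub_self, show 2 - 1 = 1 from rfl]
    rw [hNv ∅, hNv {0}, hNv {1}, hNv {2}, hNv {3}, hNv {0, 1}, hNv {0, 2}, hNv {0, 3},
      hNv {1, 2}, hNv {1, 3}, hNv {2, 3}, hNv {0, 1, 2}, hNv {0, 1, 3}, hNv {0, 2, 3},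
      hNv {1, 2, 3}, hNv {0, 1, 2, 3}]
    simp only [← T_X_pow_mul, ← map_add]
    congr 1
    simp
    ring
  · rw [hDD, hNv {3}, hNv {2, 3}, ← map_add]
    congr 1
    simp
    linear_combination (M1 * H3) * hX0
  · rw [hDD, hNv {1}, hNv {0, 1}, ← map_add]
    congr 1
    simp
    linear_combination (H1 * M3) * hX2
  · rw [g12, ← hR3]
    exact hQ12 j1
  · rw [g34, ← hR1]
    exact hQ34 j3

end Root

section Join3

variable {V : Type*} [Fintype V]

/-- Three classes, positive masses at the ends. -/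
theorem ray_join3_pos (W : Sym2 V → ℝ) (hW : ∀ g, 0 ≤ W g) (x : V → ℝ) (hx' : ∀ v, 0 < x v)
    (k : V → Fin 3) (hk : ∀ u v, k u ≠ k v → W s(u, v) = x u * x v)
    (a : Fin 4 → V) (h0 : k (a 0) = 0) (h1 : k (a 1) = 1) (h2 : k (a 2) = 0) (h3 : k (a 3) = 2)
    (hac : a 0 ≠ a 2) :
    0 ≤ Ray W s(a 0, a 1) s(a 2, a 3) := by
  have hx : ∀ v, 0 ≤ x v := fun v => (hx' v).le
  have hpos : ∀ i, 0 < x (a i) := fun i => hx' (a i)
  have : Nonempty V := ⟨a 0⟩
  set Y : Sym2 V → ℝ := fun g => W g - pw x g with hY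
  have hY0 : ∀ u v, k u ≠ k v → Y s(u, v) = 0 := by
    intro u v h
    show W s(u, v) - pw x s(u, v) = 0
    rw [hk u v h, Pool.Agent.PW.pw_mk, sub_self]
  have hYW : (fun g => Y g + pw x g) = W := by
    funext g
    show W g - pw x g + pw x g = W g
    ring
  have hne : ∀ {u v : V}, k u ≠ k v → u ≠ v := by
    rintro u v h rfl
    exact h rfl
  have hk01 : k (a 0) ≠ k (a 1) := by rw [h0, h1]; decide
  have hk23 : k (a 2) ≠ k (a 3) := by rw [h2, h3]; decide
  have hk03 : k (a 0) ≠ k (a 3) := by rw [h0, h3]; decide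
  have hef : s(a 0, a 1) ≠ s(a 2, a 3) := by
    intro h
    rw [Sym2.eq_iff] at h
    rcases h with h | h
    · exact hac h.1
    · exact hne hk03 h.1
  -- the classes
  have hcls : ∀ i : Fin 4, ∃ (n : ℕ) (θ κ : Fin n → ℝ) (c : ℝ),
      0 < c ∧ (∀ i, 0 ≤ θ i) ∧ (∀ i, 0 ≤ κ i) ∧
      ∑ j, θ j = ∑ v, rz (fun v => k v = k (a i)) x v ∧
      (∀ μ, Zs (rW (fun v => k v = k (a i)) Y) (rz (fun v => k v = k (a i)) (fun v => μ * x v)) =
        (C c * T 1 (sh (∑ j, θ j) (Pf univ θ + Qf univ θ))).eval μ) ∧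
      (∀ μ, Zs (rW (fun v => k v = k (a i)) Y) (rz (fun v => k v = k (a i)) (fun v => μ * x v)) -
        Gs (rW (fun v => k v = k (a i)) Y) (rz (fun v => k v = k (a i)) (fun v => μ * x v)) (a i) =
        μ * (C c * ∑ j, C (κ j) * T 1 (sh (∑ j, θ j) (Af θ j))).eval μ) := by
    intro i
    have h1 := class_poly (rW (fun v => k v = k (a i)) W) (fun g => by
      unfold rW
      split_ifs
      · exact hW g
      · exact le_refl 0) (rz (fun v => k v = k (a i)) x) (fun v => by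
      unfold rz
      split_ifs
      · exact hx v
      · exact le_refl 0) (a i) (by
      unfold rz
      rw [if_pos rfl]
      exact hpos i)
    obtain ⟨n, θ, κ, c, hc, hθ, hκ, hsum, h2, h3⟩ := h1
    refine ⟨n, θ, κ, c, hc, hθ, hκ, hsum, fun μ => ?_, fun μ => ?_⟩
    · rw [rz_mul, rW_sub_pw]
      exact h2 μ
    · rw [rz_mul, rW_sub_pw]
      exact h3 μ
  choose n θ κ c hc hθ hκ hsum hr hm using hcls
  -- the two marks of the first class
  obtain ⟨L, Ba0, Ba1, Bc0, Bc1, P2, hC1, hC2, hC3, hC4, hC5, hev, hst⟩ :=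
    two_marks (rW (fun v => k v = 0) W) (fun g => by
      unfold rW
      split_ifs
      · exact hW g
      · exact le_refl 0) (rz (fun v => k v = 0) x) (fun v => by
      unfold rz
      split_ifs
      · exact hx v
      · exact le_refl 0) (fun u v hu _ => by
      unfold rz at hu
      have hku : ¬ k u = 0 := by
        intro h
        rw [if_pos h] at hu
        exact (hx' u).ne' hu
      rw [rW_mk, if_neg fun h => hku h.1]) (a := a 0) (c := a 2) hac (by
      unfold rz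
      rw [if_pos h0]
      exact hpos 0) (by
      unfold rz
      rw [if_pos h2]
      exact hpos 2)
  -- notation
  set S : ℝ := ∑ v, x v with hS
  set R : Fin 4 → ℝ[X] := fun i => T 1 (sh (Xk θ i) (at' θ i)) with hR
  set M : ∀ i, Fin (n i) → ℝ[X] := fun i j => T 1 (sh (Xk θ i) (Af (θ i) j)) with hM
  set m : Fin 4 → ℝ[X] := fun i => C (c i) * ∑ j, C (κ i j) * M i j with hmdef
  set r : Fin 4 → ℝ[X] := fun i => C (c i) * R i with hrdef
  have r0 : ∀ μ, Zs (rW (fun v => k v = 0) Y) (rz (fun v => k v = 0) (fun v => μ * x v)) =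
      (r 0).eval μ := by
    have := hr 0
    rw [h0] at this
    exact this
  have r1 : ∀ μ, Zs (rW (fun v => k v = 1) Y) (rz (fun v => k v = 1) (fun v => μ * x v)) =
      (r 1).eval μ := by
    have := hr 1
    rw [h1] at this
    exact this
  have r3 : ∀ μ, Zs (rW (fun v => k v = 2) Y) (rz (fun v => k v = 2) (fun v => μ * x v)) =
      (r 3).eval μ := by
    have := hr 3
    rw [h3] at this
    exact this
  have m0 : ∀ μ, Zs (rW (fun v => k v = 0) Y) (rz (fun v => k v = 0) (fun v => μ * x v)) -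
      Gs (rW (fun v => k v = 0) Y) (rz (fun v => k v = 0) (fun v => μ * x v)) (a 0) =
      μ * (m 0).eval μ := by
    have := hm 0
    rw [h0] at this
    exact this
  have m1 : ∀ μ, Zs (rW (fun v => k v = 1) Y) (rz (fun v => k v = 1) (fun v => μ * x v)) -
      Gs (rW (fun v => k v = 1) Y) (rz (fun v => k v = 1) (fun v => μ * x v)) (a 1) =
      μ * (m 1).eval μ := by
    have := hm 1
    rw [h1] at this
    exact this
  have m2 : ∀ μ, Zs (rW (fun v => k v = 0) Y) (rz (fun v => k v = 0) (fun v => μ * x v)) -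
      Gs (rW (fun v => k v = 0) Y) (rz (fun v => k v = 0) (fun v => μ * x v)) (a 2) =
      μ * (m 2).eval μ := by
    have := hm 2
    rw [h2] at this
    exact this
  have m3 : ∀ μ, Zs (rW (fun v => k v = 2) Y) (rz (fun v => k v = 2) (fun v => μ * x v)) -
      Gs (rW (fun v => k v = 2) Y) (rz (fun v => k v = 2) (fun v => μ * x v)) (a 3) =
      μ * (m 3).eval μ := by
    have := hm 3
    rw [h3] at this
    exact this
  have hX0 : Xk θ 0 = ∑ v, rz (fun v => k v = 0) x v := by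
    have := hsum 0
    rw [h0] at this
    exact this
  have hX1 : Xk θ 1 = ∑ v, rz (fun v => k v = 1) x v := by
    have := hsum 1
    rw [h1] at this
    exact this
  have hX2 : Xk θ 2 = ∑ v, rz (fun v => k v = 0) x v := by
    have := hsum 2
    rw [h2] at this
    exact this
  have hX3 : Xk θ 3 = ∑ v, rz (fun v => k v = 2) x v := by
    have := hsum 3
    rw [h3] at this
    exact this
  have hXpos : ∀ i, 0 < Xk θ i := by
    intro i
    have h4 : Xk θ i = ∑ v, rz (fun v => k v = k (a i)) x v := hsum i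
    rw [h4]
    refine Finset.sum_pos' (fun v _ => ?_) ⟨a i, mem_univ _, ?_⟩
    · unfold rz
      split_ifs
      · exact hx v
      · exact le_refl 0
    · unfold rz
      rw [if_pos rfl]
      exact hpos i
  have hSX : S = Xk θ 0 + Xk θ 1 + Xk θ 3 := by
    rw [hX0, hX1, hX3, ← Finset.sum_add_distrib, ← Finset.sum_add_distrib]
    refine Finset.sum_congr rfl fun v _ => ?_
    unfold rz
    beta_reduce
    have : k v = 0 ∨ k v = 1 ∨ k v = 2 := by
      generalize k v = i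
      revert i
      decide
    rcases this with h | h | h
    · rw [if_pos h, if_neg (by rw [h]; decide), if_neg (by rw [h]; decide)]
      ring
    · rw [if_pos h, if_neg (by rw [h]; decide), if_neg (by rw [h]; decide)]
      ring
    · rw [if_pos h, if_neg (by rw [h]; decide), if_neg (by rw [h]; decide)]
      ring
  rw [← hX0] at hC1 hC2 hC3 hC4 hC5 hev
  have hTM : TM L (Ba0 + X * Ba1) (Bc0 + X * Bc1) P2 (Xk θ 0) :=
    ⟨Cp_mk hC1 hC2, Cp_mk hC3 hC4, hC5, fun z u v hz hu hv => hst z u v hz hu.le hv.le⟩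
  -- the hub function of the first class with two marks
  have hF2 : ∀ μ s t, F2 (rW (fun v => k v = 0) Y) (rz (fun v => k v = 0) (fun v => μ * x v))
      (a 0) (a 2) s t = (T 1 (sh (Xk θ 0) (L + C (1 + s) * (Bc0 + X * Bc1) +
        C (1 + t) * (Ba0 + X * Ba1) + C ((1 + s) * (1 + t)) * P2))).eval μ := by
    intro μ s t
    rw [← hev μ s t, rz_mul, rW_sub_pw]
    rfl
  have e00 : ∀ μ, F2 (rW (fun v => k v = 0) Y) (rz (fun v => k v = 0) (fun v => μ * x v))
      (a 0) (a 2) 0 0 = (r 0).eval μ := by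
    intro μ
    rw [F2_zero, r0]
  have e10 : ∀ μ, F2 (rW (fun v => k v = 0) Y) (rz (fun v => k v = 0) (fun v => μ * x v))
      (a 0) (a 2) (-1) 0 = μ * (m 0).eval μ := by
    intro μ
    rw [← m0, F2_Gs_left _ _ (a 0) (a 2)]
    ring
  have e01 : ∀ μ, F2 (rW (fun v => k v = 0) Y) (rz (fun v => k v = 0) (fun v => μ * x v))
      (a 0) (a 2) 0 (-1) = μ * (m 2).eval μ := by
    intro μ
    rw [← m2, F2_Gs_right _ _ (a 0) (a 2)]
    ring
  set l : ℝ[X] := T 1 (sh (Xk θ 0) L) with hl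
  have e11 : ∀ μ, F2 (rW (fun v => k v = 0) Y) (rz (fun v => k v = 0) (fun v => μ * x v))
      (a 0) (a 2) (-1) (-1) = l.eval μ := by
    intro μ
    rw [hF2, hl]
    congr 3
    simp
  have q0 : X * m 0 = T 1 (sh (Xk θ 0) (L + (Ba0 + X * Ba1))) := by
    refine Polynomial.funext fun μ => ?_
    rw [eval_mul, eval_X, ← e10, hF2]
    congr 3
    simp
  have q2 : X * m 2 = T 1 (sh (Xk θ 0) (L + (Bc0 + X * Bc1))) := by
    refine Polynomial.funext fun μ => ?_
    rw [eval_mul, eval_X, ← e01, hF2]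
    congr 3
    simp
  have q00 : r 0 = T 1 (sh (Xk θ 0) (L + (Bc0 + X * Bc1) + (Ba0 + X * Ba1) + P2)) := by
    refine Polynomial.funext fun μ => ?_
    rw [← e00, hF2]
    congr 3
    simp
  set E : ℝ[X] →ₗ[ℝ] ℝ := (Polynomial.leval S).comp (T (-1)) with hE
  have hEa : ∀ p, E p = (T (-1) p).eval S := fun p => rfl
  set cc : ℝ := c 1 * c 3 with hcc
  have hcc0 : 0 < cc := mul_pos (hc 1) (hc 3)
  set r4 : ℝ[X] := r 0 * r 1 * r 3 with hr4
  -- the partition function with a hub, with weights on the two pairs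
  have hp : ∀ t s μ, Zs (Function.update (Function.update Y s(a 0, a 1) t) s(a 2, a 3) s)
      (fun v => μ * x v) =
      (C ((1 + t) * (1 + s)) * (r 0 * r 1 * r 3) - C (t * (1 + s)) * (X * m 0 * (X * m 1) * r 3) -
        C ((1 + t) * s) * (X * m 2 * r 1 * (X * m 3)) + C (t * s) * (l * (X * m 1) * (X * m 3))
        ).eval μ := by
    intro t s μ
    rw [Zs_three k Y _ hY0 h0 h1 h2 h3, e00, e10, e01, e11, m1, m3, r1, r3]
    simp only [eval_add, eval_mul, eval_sub, eval_C, eval_X]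
  have hp0 : ∀ μ, Zs Y (fun v => μ * x v) = r4.eval μ := by
    intro μ
    have h5 := hp 0 0 μ
    have h6 : Function.update (Function.update Y s(a 0, a 1) 0) s(a 2, a 3) 0 = Y := by
      rw [Function.update_eq_iff]
      refine ⟨(hY0 _ _ hk23).symm, fun g hg => ?_⟩
      by_cases h : g = s(a 0, a 1)
      · subst h
        rw [Function.update_self, hY0 _ _ hk01]
      · rw [Function.update_of_ne h]
    rw [h6] at h5
    rw [h5, hr4]
    simp only [eval_add, eval_mul, eval_sub, eval_C]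
    ring
  set L0 := Lam S r4 with hL0
  set Q12 := E (m 0 * m 1 * r 3) with hQ12
  set Q34 := E (m 2 * r 1 * m 3) with hQ34
  set U := E (l * m 1 * m 3) with hU
  have hray : Ray W s(a 0, a 1) s(a 2, a 3) = Q12 * Q34 - U * L0 := by
    rw [Pool.Agent.Lib.MP_d90615_co.ray_of_four W hef (x (a 0) * x (a 1)) (x (a 2) * x (a 3))
      L0 (L0 - Q12) (L0 - Q34) (L0 - Q12 - Q34 + U)]
    · ring
    · intro ρ σ
      set t := ρ - x (a 0) * x (a 1) with ht
      set s := σ - x (a 2) * x (a 3) with hs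
      have h5 : Function.update (Function.update W s(a 0, a 1) ρ) s(a 2, a 3) σ =
          fun g => Function.update (Function.update Y s(a 0, a 1) t) s(a 2, a 3) s g
            + pw x g := by
        funext g
        by_cases h2 : g = s(a 2, a 3)
        · subst h2
          rw [Function.update_self, Function.update_self, Pool.Agent.PW.pw_mk, hs]
          ring
        · rw [Function.update_of_ne h2, Function.update_of_ne h2]
          by_cases h3 : g = s(a 0, a 1)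
          · subst h3
            rw [Function.update_self, Function.update_self, Pool.Agent.PW.pw_mk, ht]
            ring
          · rw [Function.update_of_ne h3, Function.update_of_ne h3]
            show W g = W g - pw x g + pw x g
            ring
      rw [h5, lemmaA _ x _ (hp t s), ← hS]
      have h6 : C ((1 + t) * (1 + s)) * (r 0 * r 1 * r 3) -
          C (t * (1 + s)) * (X * m 0 * (X * m 1) * r 3) -
          C ((1 + t) * s) * (X * m 2 * r 1 * (X * m 3)) + C (t * s) * (l * (X * m 1) * (X * m 3)) =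
          C ((1 + t) * (1 + s)) * r4 + (C (-(t * (1 + s))) * (X ^ 2 * (m 0 * m 1 * r 3)) +
          (C (-((1 + t) * s)) * (X ^ 2 * (m 2 * r 1 * m 3)) +
          C (t * s) * (X ^ 2 * (l * m 1 * m 3)))) := by
        rw [hr4]
        simp only [C_mul, C_add, C_neg, C_1]
        ring
      rw [h6, Lam_add, Lam_add, Lam_add, Lam_C_mul, Lam_C_mul, Lam_C_mul, Lam_C_mul, Lam_X_sq,
        Lam_X_sq, Lam_X_sq, ← hEa, ← hEa, ← hEa, ← hL0, ← hQ12, ← hQ34, ← hU]
      ring
  have hL0Z : Z W = L0 := by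
    have h5 := lemmaA Y x r4 hp0
    rw [hYW, ← hS] at h5
    exact h5
  have hL00 : 0 ≤ L0 := hL0Z ▸ Z_nonneg W hW
  -- the hub polynomial
  obtain ⟨F, _, hF, _, _⟩ := exists_hub W x (a 0)
  obtain ⟨r4', _, h4, _, h4'⟩ := exists_hub Y x (a 0)
  have h44 : r4' = r4 := Polynomial.funext fun μ => by rw [← h4, hp0]
  rw [h44, ← hS] at h4'
  have hFL : ∀ l, F.eval l = Lam (S + l) ((1 + C l * X) * r4) := by
    intro l
    have h5 := lemmaA_hub Y x r4 hp0 l
    rw [hYW, hF, ← hS] at h5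
    exact h5
  have hode := hub_ode S r4 F h4' hFL
  have hF0 : F.eval 0 = L0 := by
    rw [hFL 0, add_zero, C_0, zero_mul, add_zero, one_mul]
  set f : ℝ[X] := C cc⁻¹ * F with hfdef
  have hf0 : f.eval 0 = cc⁻¹ * L0 := by
    rw [hfdef, eval_mul, eval_C, hF0]
  have hTr4 : T (-1) r4 = C cc * T (-1) (r 0 * R 1 * R 3) := by
    rw [← T_C_mul, hr4, hcc]
    congr 1
    simp only [C_mul, hrdef]
    ring
  have hfode : derivative f = (C S + X) * f - X * (T (-1) (r 0 * R 1 * R 3)).comp (X + C S) := by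
    have h5 : (C cc⁻¹ : ℝ[X]) * C cc = 1 := by
      rw [← C_mul, inv_mul_cancel₀ hcc0.ne', C_1]
    rw [hfdef, derivative_C_mul, hode, hTr4, mul_comp, C_comp]
    linear_combination (-X * (T (-1) (r 0 * R 1 * R 3)).comp (X + C S)) * h5
  rw [q00] at hfode
  have hmarks : ∀ (i : Fin 4) (p1 p2 : ℝ[X]) (x1 x2 : ℝ), (p1 = 0 ∨ Cn x1 x1 (sh x1 p1)) →
      (p2 = 0 ∨ Cn x2 x2 (sh x2 p2)) → Xk θ i + x1 + x2 ≤ S →
      0 ≤ (T (-1) (m i * T 1 (sh x1 p1) * T 1 (sh x2 p2))).eval S := by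
    intro i p1 p2 x1 x2 hp1 hp2 hle
    have h5 : m i * T 1 (sh x1 p1) * T 1 (sh x2 p2) =
        C (c i) * ∑ j, C (κ i j) * (M i j * T 1 (sh x1 p1) * T 1 (sh x2 p2)) := by
      rw [hmdef]
      simp only
      rw [mul_assoc, mul_assoc, Finset.sum_mul]
      congr 1
      refine Finset.sum_congr rfl fun j _ => ?_
      ring
    rw [h5, ← hEa]
    exact cone_step E (hκ i) (hc i).le fun j =>
      three_nonneg (Af_cn (θ i) (hθ i) j) hp1 hp2 hle
  have hroot : ∀ (j1 : Fin (n 1)) (j3 : Fin (n 3)),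
      E (l * M 1 j1 * M 3 j3) * (cc⁻¹ * L0) ≤
        E (m 0 * M 1 j1 * R 3) * E (m 2 * R 1 * M 3 j3) := by
    intro j1 j3
    have h5 := root_ineq hTM (hXpos 0).le (θ 1) (θ 3) (hθ 1) (hθ 3) q0 q2 hSX
      (fun j1 => ?_) (fun j3 => ?_) (f := f) (by rw [hf0]; positivity) hfode j1 j3
    · rw [hf0] at h5
      exact h5
    · exact hmarks 0 _ _ _ _ (Af_cn (θ 1) (hθ 1) j1) (Or.inr (Cn_at θ hθ 3)) hSX.ge
    · exact hmarks 2 _ _ _ _ (Or.inr (Cn_at θ hθ 1)) (Af_cn (θ 3) (hθ 3) j3)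
        (by rw [hX2, ← hX0]; exact hSX.ge)
  have hfin := cone_two E l (m 0) (m 2) (R 1) (R 3) (hκ 1) (hκ 3) (hc 1).le (hc 3).le
    (cc⁻¹ * L0) hroot (m1 := m 1) (m3 := m 3) rfl rfl
  have e12 : Q12 = c 3 * E (m 0 * m 1 * R 3) := by
    rw [hQ12, show m 0 * m 1 * r 3 = (c 3) • (m 0 * m 1 * R 3) by
      rw [← Polynomial.C_mul']
      simp only [hrdef]
      ring, map_smul, smul_eq_mul]
  have e34 : Q34 = c 1 * E (m 2 * R 1 * m 3) := by
    rw [hQ34, show m 2 * r 1 * m 3 = (c 1) • (m 2 * R 1 * m 3) by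
      rw [← Polynomial.C_mul']
      simp only [hrdef]
      ring, map_smul, smul_eq_mul]
  rw [hray, e12, e34]
  have h5 := mul_le_mul_of_nonneg_left hfin hcc0.le
  have h6 : cc * (U * (cc⁻¹ * L0)) = U * L0 := by
    field_simp
  rw [← hU, h6] at h5
  have h7 : cc * (E (m 0 * m 1 * R 3) * E (m 2 * R 1 * m 3)) =
      c 3 * E (m 0 * m 1 * R 3) * (c 1 * E (m 2 * R 1 * m 3)) := by
    rw [hcc]
    ring
  linarith

/-- **Three classes, two ends in the first class.** -/
theorem ray_join3 (W : Sym2 V → ℝ) (hW : ∀ g, 0 ≤ W g) (x : V → ℝ) (hx : ∀ v, 0 ≤ x v)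
    (k : V → Fin 3) (hk : ∀ u v, k u ≠ k v → W s(u, v) = x u * x v)
    (a : Fin 4 → V) (h0 : k (a 0) = 0) (h1 : k (a 1) = 1) (h2 : k (a 2) = 0) (h3 : k (a 3) = 2)
    (hac : a 0 ≠ a 2) :
    0 ≤ Ray W s(a 0, a 1) s(a 2, a 3) := by
  set G : ℝ → Sym2 V → ℝ := fun ε g => W g +
    if (Sym2.map k g).IsDiag then 0 else pw (fun v => x v + ε) g - pw x g with hG
  have hG0 : G 0 = W := by
    funext g
    show W g + (if (Sym2.map k g).IsDiag then 0 else pw (fun v => x v + 0) g - pw x g) = W g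
    simp only [add_zero, sub_self, ite_self]
  have hk' : ∀ g : Sym2 V, ¬ (Sym2.map k g).IsDiag → W g = pw x g := by
    intro g hg
    induction g using Sym2.ind with
    | _ u v =>
      rw [Sym2.map_mk, Sym2.mk_isDiag_iff] at hg
      rw [Pool.Agent.PW.pw_mk]
      exact hk u v hg
  have key : ∀ ε : ℝ, 0 < ε → 0 ≤ Ray (G ε) s(a 0, a 1) s(a 2, a 3) := by
    intro ε hε
    refine ray_join3_pos (G ε) (fun g => ?_) (fun v => x v + ε)
      (fun v => add_pos_of_nonneg_of_pos (hx v) hε) k (fun u v h => ?_) a h0 h1 h2 h3 hac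
    · show 0 ≤ W g + (if (Sym2.map k g).IsDiag then 0 else pw (fun v => x v + ε) g - pw x g)
      by_cases h : (Sym2.map k g).IsDiag
      · rw [if_pos h, add_zero]
        exact hW g
      · rw [if_neg h, hk' g h, add_sub_cancel]
        induction g using Sym2.ind with
        | _ u v =>
          rw [Pool.Agent.PW.pw_mk]
          exact mul_nonneg (add_nonneg (hx u) hε.le) (add_nonneg (hx v) hε.le)
    · show W s(u, v) + (if (Sym2.map k s(u, v)).IsDiag then 0
        else pw (fun v => x v + ε) s(u, v) - pw x s(u, v)) = _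
      have h1 : ¬ (Sym2.map k s(u, v)).IsDiag := by
        rw [Sym2.map_mk, Sym2.mk_isDiag_iff]
        exact h
      rw [if_neg h1, hk' _ h1, Pool.Agent.PW.pw_mk, Pool.Agent.PW.pw_mk]
      ring
  have hcont : Continuous fun ε : ℝ => Ray (G ε) s(a 0, a 1) s(a 2, a 3) := by
    refine (Pool.Agent.Lib.MP_d90615_co.continuous_Ray s(a 0, a 1) s(a 2, a 3)).comp ?_
    refine continuous_pi fun g => ?_
    show Continuous fun ε : ℝ => W g +
      (if (Sym2.map k g).IsDiag then 0 else pw (fun v => x v + ε) g - pw x g)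
    by_cases h : (Sym2.map k g).IsDiag
    · simp only [if_pos h]
      exact continuous_const
    · simp only [if_neg h]
      induction g using Sym2.ind with
      | _ u v =>
        simp only [Pool.Agent.PW.pw_mk]
        fun_prop
  have h5 := (hcont.tendsto 0).mono_left (nhdsWithin_le_nhds (s := Set.Ioi 0))
  have h6 := ge_of_tendsto h5 (by
    filter_upwards [self_mem_nhdsWithin] with ε hε
    exact key ε hε)
  rw [hG0] at h6
  exact h6

end Join3

end Pool.Agent.MJ
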