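import Mathlib
import Pool.Agent.Lib.MP_d90615_co.Mg.G012
import Pool.Agent.Lib.MP_d90615_co.Mg.G011
import Pool.Agent.Lib.MP_d90615_co.Mg.G015

/-!
The first edge outside a product join of two classes, the second edge between the two classes.
-/

set_option autoImplicit false
set_option linter.unusedSectionVars false

namespace Pool.Agent.MJ

open Finset Polynomial
open scoped Classical
open Pool.Agent.PW (Z N N2 Ray cw pw mv ct)

variable {V : Type*} [Fintype V]

/-- **Case 2**: the edge `s(a, b)` outside the join of `p1` and `p2`, the edge `s(c, d)` between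
`p1` and `p2`. -/
theorem case2 (W : Sym2 V → ℝ) (hW : ∀ g, 0 ≤ W g) (p1 p2 : V → Prop) (hp : ∀ v, p1 v → ¬ p2 v)
    (x ρ : V → ℝ) (hx : ∀ v, 0 ≤ x v) (hρ : ∀ v, 0 ≤ ρ v)
    (h12 : ∀ u v, p1 u → p2 v → W s(u, v) = x u * x v)
    (hout : ∀ u v, (p1 u ∨ p2 u) → ¬ (p1 v ∨ p2 v) → W s(u, v) = x u * ρ v) {a b c d : V}
    (ha : ¬ (p1 a ∨ p2 a)) (hb : ¬ (p1 b ∨ p2 b)) (hab : a ≠ b) (hc : p1 c) (hd : p2 d)
    (hxc : 0 < x c) (hxd : 0 < x d)
    (IH : ∀ y : V → ℝ, (∀ v, 0 ≤ y v) → (∀ v, ¬ (p1 v ∨ p2 v) → y v = 0) →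
      (univ.filter fun v => y v ≠ 0).card <
        (univ.filter fun v => (p1 v ∨ p2 v) ∧ x v ≠ 0).card →
      ∀ i v, (p1 i ∨ p2 i) → 0 < y i → ¬ (p1 v ∨ p2 v) → 0 < ρ v → v ≠ a → v ≠ b →
      0 ≤ Ray (glue (fun v => p1 v ∨ p2 v) (fun _ => 0) W (jz (fun v => p1 v ∨ p2 v) y ρ))
        s(a, b) s(i, v)) :
    0 ≤ Ray W s(a, b) s(c, d) := by
  set p : V → Prop := fun v => p1 v ∨ p2 v with hpdef
  have hcd : c ≠ d := by
    rintro rfl
    exact hp c hc hd
  have h1 := eq_glue p W x ρ hout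
  have hcnt : cnt (rz p x) = (univ.filter fun v => (p1 v ∨ p2 v) ∧ x v ≠ 0).card := by
    unfold cnt
    congr 1
    refine Finset.filter_congr fun v _ => ?_
    unfold rz
    by_cases hv : p v
    · rw [if_pos hv]
      exact ⟨fun h => ⟨hv, h⟩, fun h => h.2⟩
    · rw [if_neg hv]
      exact ⟨fun h => absurd rfl h, fun h => absurd h.1 hv⟩
  rw [h1]
  refine case2_gen (fun p B ρ m => exists_lam p B ρ m) p hW hW hρ (Or.inl hc) (Or.inr hd) hcd
    ?_ (by rw [Sym2.mk_isDiag_iff]; exact hab) ?_ ?_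
  · intro v hv
    rcases Sym2.mem_iff.mp hv with rfl | rfl
    · exact ha
    · exact hb
  · intro F F1 hF hF1
    refine join_cone (rW p W) (fun g => ?_) (rz p x) (fun v => ?_) p1 (fun u v hu hv => ?_) hc
      (fun h => hp d h hd) ?_ ?_ F F1 hF hF1
    · unfold rW
      split_ifs
      · exact hW g
      · exact le_rfl
    · unfold rz
      split_ifs
      · exact hx v
      · exact le_rfl
    · have hpu : p u := Or.inl hu
      have e1 : rz p x u = x u := if_pos hpu
      by_cases hpv : p v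
      · have hv2 : p2 v := hpv.resolve_left hv
        have e2 : rz p x v = x v := if_pos hpv
        rw [rW_mem hpu hpv, e1, e2, h12 u v hu hv2]
      · have e2 : rz p x v = 0 := if_neg hpv
        have e3 : rW p W s(u, v) = 0 := if_neg fun h => hpv (h v (Sym2.mem_mk_right u v))
        rw [e2, e3, mul_zero]
    · rw [show rz p x c = x c from if_pos (Or.inl hc)]
      exact hxc
    · rw [show rz p x d = x d from if_pos (Or.inr hd)]
      exact hxd
  · intro y hy hy0 hlt i v hi hyi hv hρv hve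
    rw [hcnt] at hlt
    refine IH y hy hy0 hlt i v hi hyi hv hρv ?_ ?_
    · rintro rfl
      exact hve (Sym2.mem_mk_left v b)
    · rintro rfl
      exact hve (Sym2.mem_mk_right a v)

end Pool.Agent.MJ
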