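import Mathlib
import Pool.Agent.Lib.MP_d90615_co.Mg.G011
import Pool.Agent.Lib.MP_d90615_co.TW.Pair

/-!
All pairs of edges of a graph with classes of vertices.
-/

set_option autoImplicit false
set_option linter.unusedSectionVars false

namespace Pool.Agent.MJ

open Finset
open scoped Classical
open Pool.Agent.PW (Ray)
open Pool.Agent.Lib.MP_d90615_co (ray_adj ray_twin class_step)

variable {V : Type*} [Fintype V] {K : Type*}

/-- **All pairs of disjoint edges** of a graph with classes, from the pairs that join four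
different classes. -/
theorem ray_class_of (k : V → K) (M : K → K → ℝ) (hM0 : ∀ i j, 0 ≤ M i j)
    (h4 : ∀ (W : Sym2 V → ℝ) (x : V → ℝ), (∀ g, 0 ≤ W g) → (∀ v, 0 ≤ x v) →
      (∀ u v, u ≠ v → W s(u, v) = x u * x v * M (k u) (k v)) → ∀ a b c d : V,
      k a ≠ k b → k c ≠ k d → k a ≠ k c → k a ≠ k d → k b ≠ k c → k b ≠ k d →
      M (k a) (k b) ≠ 0 → M (k c) (k d) ≠ 0 → 0 ≤ Ray W s(a, b) s(c, d)) (n : ℕ) :
    ∀ (W : Sym2 V → ℝ) (x : V → ℝ), (∀ g, 0 ≤ W g) → (∀ v, 0 ≤ x v) →
      (∀ u v, u ≠ v → W s(u, v) = x u * x v * M (k u) (k v)) →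
      (univ.filter fun v => x v ≠ 0).card = n → ∀ a b c d : V, a ≠ b → a ≠ c → a ≠ d → b ≠ c →
      b ≠ d → c ≠ d → M (k a) (k b) ≠ 0 → M (k c) (k d) ≠ 0 → 0 ≤ Ray W s(a, b) s(c, d) := by
  induction n using Nat.strong_induction_on with
  | _ n ih =>
    intro W x hW0 hx hW hn a b c d hab hac had hbc hbd hcd hMab hMcd
    have key : ∀ a b c d : V, a ≠ b → a ≠ c → a ≠ d → b ≠ c → b ≠ d → c ≠ d → k a = k c →
        0 ≤ Ray W s(a, b) s(c, d) := by
      intro a b c d hab hac had hbc hbd hcd hk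
      refine ray_twin W hW0 hab hac had hbc hbd hcd (hx a) (hx c)
        (fun v => x v * M (k a) (k v)) (fun v => mul_nonneg (hx v) (hM0 _ _)) ?_ ?_
      · intro v h1 _ _ _
        rw [hW a v (Ne.symm h1)]
        ring
      · intro v _ _ h3 _
        rw [hW c v (Ne.symm h3), ← hk]
        ring
    by_cases h : k a = k b
    · rw [Pool.Agent.PW.Ray_comm]
      exact class_step k M hM0 n ih W x hW0 hx hW hn hcd hac.symm hbc.symm had.symm hbd.symm hab
        h hMcd
    by_cases h : k c = k d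
    · exact class_step k M hM0 n ih W x hW0 hx hW hn hab hac had hbc hbd hcd h hMab
    by_cases h : k a = k c
    · exact key a b c d hab hac had hbc hbd hcd h
    by_cases h : k a = k d
    · rw [Sym2.eq_swap (a := c)]
      exact key a b d c hab had hac hbd hbc hcd.symm h
    by_cases h : k b = k c
    · rw [Sym2.eq_swap (a := a)]
      exact key b a c d hab.symm hbc hbd hac had hcd h
    by_cases h : k b = k d
    · rw [Sym2.eq_swap (a := a), Sym2.eq_swap (a := c)]
      exact key b a d c hab.symm hbd hbc had hac hcd.symm h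
    exact h4 W x hW0 hx hW a b c d ‹_› ‹_› ‹_› ‹_› ‹_› ‹_› hMab hMcd

/-- The product join for ends given separately. -/
theorem ray_join' (W : Sym2 V → ℝ) (hW : ∀ g, 0 ≤ W g) (x : V → ℝ) (hx : ∀ v, 0 ≤ x v)
    (k : V → Fin 4) (hk : ∀ u v, k u ≠ k v → W s(u, v) = x u * x v)
    {a b c d : V} (ha : k a = 0) (hb : k b = 1) (hc : k c = 2) (hd : k d = 3) :
    0 ≤ Ray W s(a, b) s(c, d) :=
  ray_join W hW x hx k hk ![a, b, c, d] (by
    intro i
    fin_cases i
    · exact ha
    · exact hb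
    · exact hc
    · exact hd)

/-- Two edges that join four different classes of a complete multipartite graph. -/
theorem ray_multipartite (W : Sym2 V → ℝ) (hW : ∀ g, 0 ≤ W g) (x : V → ℝ) (hx : ∀ v, 0 ≤ x v)
    (k : V → K) (hk : ∀ u v, k u ≠ k v → W s(u, v) = x u * x v) {a b c d : V}
    (hab : k a ≠ k b) (hac : k a ≠ k c) (had : k a ≠ k d) (hbc : k b ≠ k c) (hbd : k b ≠ k d)
    (hcd : k c ≠ k d) : 0 ≤ Ray W s(a, b) s(c, d) := by
  refine ray_join' W hW x hx
    (fun v => if k v = k a then 0 else if k v = k b then 1 else if k v = k c then 2 else 3)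
    (fun u v huv => hk u v fun h => huv ?_) ?_ ?_ ?_ ?_
  · rw [h]
  · rw [if_pos rfl]
  · rw [if_neg (Ne.symm hab), if_pos rfl]
  · rw [if_neg (Ne.symm hac), if_neg (Ne.symm hbc), if_pos rfl]
  · rw [if_neg (Ne.symm had), if_neg (Ne.symm hbd), if_neg (Ne.symm hcd)]

end Pool.Agent.MJ
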