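import Mathlib
import Pool.Agent.Lib.MP_d90615_co.MJ.B6
import Pool.Agent.Lib.MP_d90615_co.Mg.G013
import Pool.Agent.Lib.MP_d90615_co.Mg.G008
import Pool.Agent.Lib.MP_d90615_co.MJ.Case2

/-!
Edges between the blocks of a graph of rank-width one.
-/

set_option autoImplicit false
set_option linter.unusedSectionVars false

namespace Pool.Agent.MJ

open Finset
open scoped Classical Topology
open Pool.Agent.PW (Z N N2 Ray cw pw mv)

universe u

/-- Blow-up of the indices. -/
theorem Red.blow {K K' : Type*} {T : Sym2 K → ℝ} (h : Red T) (φ : K' → K) (c : K' → ℝ)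
    (hc : ∀ k, 0 ≤ c k) (T' : Sym2 K' → ℝ)
    (h1 : ∀ k l, φ k ≠ φ l → T' s(k, l) = c k * c l * T s(φ k, φ l))
    (h2 : ∀ k l, k ≠ l → φ k = φ l → T' s(k, l) = 0) : Red T' := by
  intro S hS
  by_cases hinj : Set.InjOn φ S
  · have hcard : 1 < (S.image φ).card := by rwa [Finset.card_image_of_injOn hinj]
    obtain ⟨u, hu, v, hv, huv, γ, hγ, hy⟩ := h _ hcard
    obtain ⟨u', hu', rfl⟩ := Finset.mem_image.mp hu
    obtain ⟨v', hv', rfl⟩ := Finset.mem_image.mp hv
    have huv' : u' ≠ v' := fun e => huv (by rw [e])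
    rcases (hc u').eq_or_lt with h0 | h0
    · refine ⟨v', hv', u', hu', huv'.symm, 0, le_refl 0, fun y hyS _ h4 => ?_⟩
      have hne : φ u' ≠ φ y := fun e => h4 (hinj hyS hu' e.symm)
      rw [h1 _ _ hne, ← h0]
      ring
    · refine ⟨u', hu', v', hv', huv', γ * c v' / c u',
        div_nonneg (mul_nonneg hγ (hc v')) h0.le, fun y hyS h3 h4 => ?_⟩
      have hne1 : φ v' ≠ φ y := fun e => h4 (hinj hyS hv' e.symm)
      have hne2 : φ u' ≠ φ y := fun e => h3 (hinj hyS hu' e.symm)
      rw [h1 _ _ hne1, h1 _ _ hne2,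
        hy (φ y) (mem_image_of_mem _ hyS) (Ne.symm hne2) (Ne.symm hne1)]
      field_simp
  · unfold Set.InjOn at hinj
    push Not at hinj
    obtain ⟨u, hu, v, hv, e, huv⟩ := hinj
    have key : ∀ u v : K', u ∈ S → v ∈ S → φ u = φ v → u ≠ v → 0 < c u →
        ∃ c₁ : ℝ, 0 ≤ c₁ ∧ ∀ y ∈ S, y ≠ u → y ≠ v → T' s(v, y) = c₁ * T' s(u, y) := by
      intro u v _ _ e _ h0
      refine ⟨c v / c u, div_nonneg (hc v) h0.le, fun y _ h3 h4 => ?_⟩
      by_cases h5 : φ u = φ y
      · rw [h2 u y (Ne.symm h3) h5, h2 v y (Ne.symm h4) (e ▸ h5), mul_zero]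
      · have h6 : φ v ≠ φ y := e ▸ h5
        rw [h1 _ _ h5, h1 _ _ h6, e]
        field_simp
    rcases (hc u).eq_or_lt with h0 | h0
    · refine ⟨v, hv, u, hu, Ne.symm huv, 0, le_refl 0, fun y _ _ h4 => ?_⟩
      by_cases h5 : φ u = φ y
      · rw [h2 u y (Ne.symm h4) h5, zero_mul]
      · rw [h1 _ _ h5, ← h0]
        ring
    · obtain ⟨c₁, hc₁, h7⟩ := key u v hu hv e huv h0
      exact ⟨u, hu, v, hv, huv, c₁, hc₁, h7⟩

section

variable {V : Type*} [Fintype V]

/-- Three blocks, two ends in one of them. -/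
theorem ray_tri (W : Sym2 V → ℝ) (hW : ∀ g, 0 ≤ W g) (x : V → ℝ) (hx : ∀ v, 0 ≤ x v)
    (k : V → Fin 3) (hk : ∀ u v, k u ≠ k v → W s(u, v) = x u * x v) {a b c d : V} (hac : a ≠ c)
    (h1 : k a = k c) (h2 : k b ≠ k a) (h3 : k d ≠ k a) (h4 : k b ≠ k d) :
    0 ≤ Ray W s(a, b) s(c, d) := by
  set k' : V → Fin 3 := fun v => if k v = k a then 0 else if k v = k b then 1 else 2 with hk'
  have h5 : ∀ u v, k' u ≠ k' v → W s(u, v) = x u * x v := by
    intro u v h
    refine hk u v fun e => h ?_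
    simp only [hk', e]
  have h6 := ray_join3 W hW x hx k' h5 (fun i => match i with
    | 0 => a
    | 1 => b
    | 2 => c
    | 3 => d) (by simp [hk']) (by simp [hk', h2]) (by simp [hk', h1]) (by
      simp only [hk']
      rw [if_neg h3, if_neg (Ne.symm h4)]) hac
  exact h6

end

/-- The statement for all data with `n` vertices of positive mass. -/
def NCn (V : Type u) [Fintype V] (n : ℕ) : Prop :=
  ∀ (K : Type u) [Fintype K] (W : Sym2 V → ℝ) (x : V → ℝ) (r : V → K) (T : Sym2 K → ℝ),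
    (∀ g, 0 ≤ W g) → (∀ v, 0 ≤ x v) → (∀ g, 0 ≤ T g) → Red T →
    (∀ u v, r u ≠ r v → W s(u, v) = x u * x v * T s(r u, r v)) →
    (univ.filter fun v => x v ≠ 0).card = n →
    ∀ a b c d, r a ≠ r b → r c ≠ r d → s(r a, r b) ≠ s(r c, r d) →
      0 < x a → 0 < x b → 0 < x c → 0 < x d → 0 ≤ Ray W s(a, b) s(c, d)

section

variable {V : Type u} [Fintype V]

/-- Both ends of `e` outside two parts. -/
theorem step_case2 (n : ℕ) (ih : ∀ m < n, NCn V m) {K : Type u} [Fintype K] (W : Sym2 V → ℝ)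
    (x : V → ℝ) (r : V → K) (T : Sym2 K → ℝ) (hW : ∀ g, 0 ≤ W g) (hx : ∀ v, 0 ≤ x v)
    (hT : ∀ g, 0 < T g) (h : Red T)
    (hWT : ∀ u v, r u ≠ r v → W s(u, v) = x u * x v * T s(r u, r v))
    (hn : (univ.filter fun v => x v ≠ 0).card = n) (k : K → Fin 3) (m : K → ℝ)
    (hm : ∀ v, 0 < m v) (hk : ∀ u v, k u ≠ k v → T s(u, v) = m u * m v) {a b c d : V}
    (hab : r a ≠ r b) (ha : k (r a) = 2) (hb : k (r b) = 2) (hc : k (r c) = 0)
    (hd : k (r d) = 1) (hxa : 0 < x a) (hxb : 0 < x b) (hxc : 0 < x c) (hxd : 0 < x d) :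
    0 ≤ Ray W s(a, b) s(c, d) := by
  set z : V → ℝ := fun v => x v * m (r v) with hz
  have hz0 : ∀ v, 0 ≤ z v := fun v => mul_nonneg (hx v) (hm _).le
  have hW' : ∀ u v, k (r u) ≠ k (r v) → W s(u, v) = z u * z v := by
    intro u v huv
    have h1 : r u ≠ r v := fun e => huv (by rw [e])
    rw [hWT u v h1, hk _ _ huv, hz]
    ring
  have h01 : ∀ v, k (r v) = 0 → ¬ k (r v) = 1 := by
    intro v h1 h2
    rw [h1] at h2
    exact absurd h2 (by decide)
  have h2 : ∀ v, ¬ (k (r v) = 0 ∨ k (r v) = 1) ↔ k (r v) = 2 := by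
    intro v
    generalize k (r v) = i
    revert i
    decide
  refine case2 W hW (fun v => k (r v) = 0) (fun v => k (r v) = 1) h01 z z hz0 hz0
    (fun u v hu hv => hW' u v (by rw [hu, hv]; decide))
    (fun u v hu hv => hW' u v (by
      rw [h2] at hv
      rw [hv]
      rcases hu with hu | hu <;> rw [hu] <;> decide))
    ((h2 a).mpr ha) ((h2 b).mpr hb) (fun e => hab (by rw [e])) hc hd
    (mul_pos hxc (hm _)) (mul_pos hxd (hm _)) ?_
  intro y hy hyp hcard i v hi hyi hv hzv hva hvb
  set p : V → Prop := fun v => k (r v) = 0 ∨ k (r v) = 1 with hp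
  have hxv : 0 < x v := by
    rcases (hx v).eq_or_lt with h0 | h0
    · exfalso
      rw [hz] at hzv
      simp only [← h0, zero_mul] at hzv
      exact lt_irrefl _ hzv
    · exact h0
  -- the new data
  set x' : V → ℝ := jz p y x with hx'
  set φ : K ⊕ V → K := fun l => Sum.elim (fun l => if k l = 2 then l else r c) (fun _ => r c) l
    with hφ
  set γ : K ⊕ V → ℝ := fun l => Sum.elim (fun l => if k l = 2 then 1 else 0)
    (fun _ => (m (r c))⁻¹) l with hγ
  set T' : Sym2 (K ⊕ V) → ℝ := fun g => if (Sym2.map φ g).IsDiag then 0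
    else pw γ g * T (Sym2.map φ g) with hT'
  set r' : V → K ⊕ V := fun v => if p v then Sum.inr v else Sum.inl (r v) with hr'
  have hγ0 : ∀ l, 0 ≤ γ l := by
    rintro (l | l)
    · simp only [hγ, Sum.elim_inl]
      split_ifs <;> norm_num
    · simp only [hγ, Sum.elim_inr]
      exact inv_nonneg.mpr (hm _).le
  have hT'mk : ∀ l l', T' s(l, l') = if φ l = φ l' then 0 else γ l * γ l' * T s(φ l, φ l') := by
    intro l l'
    simp only [hT', Sym2.map_mk, Sym2.mk_isDiag_iff, Pool.Agent.PW.pw_mk]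
  have hRed : Red T' := by
    refine Red.blow h φ γ hγ0 T' (fun l l' hl => ?_) (fun l l' _ hl => ?_)
    · rw [hT'mk, if_neg hl]
    · rw [hT'mk, if_pos hl]
  have hT'0 : ∀ g, 0 ≤ T' g := by
    intro g
    induction g using Sym2.ind with
    | _ l l' =>
      rw [hT'mk]
      split_ifs
      · exact le_refl 0
      · exact mul_nonneg (mul_nonneg (hγ0 _) (hγ0 _)) (hT _).le
  have hr'in : ∀ v, p v → r' v = Sum.inr v := fun v hv => if_pos hv
  have hr'out : ∀ v, ¬ p v → r' v = Sum.inl (r v) := fun v hv => if_neg hv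
  have hφin : ∀ v, φ (Sum.inr v) = r c := fun v => rfl
  have hφout : ∀ v, ¬ p v → φ (Sum.inl (r v)) = r v := fun v hv => by
    simp only [hφ, Sum.elim_inl]
    exact if_pos ((h2 v).mp hv)
  have hγin : ∀ v, γ (Sum.inr v) = (m (r c))⁻¹ := fun v => rfl
  have hγout : ∀ v, ¬ p v → γ (Sum.inl (r v)) = 1 := fun v hv => by
    simp only [hγ, Sum.elim_inl]
    exact if_pos ((h2 v).mp hv)
  have hcross : ∀ u v, p u → ¬ p v →
      glue p (fun _ => 0) W (jz p y z) s(u, v) = x' u * x' v * T' s(r' u, r' v) := by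
    intro u v hu hv
    have h3 : k (r c) ≠ k (r v) := by
      rw [hc, (h2 v).mp hv]
      decide
    have h4 : r c ≠ r v := fun e => h3 (by rw [e])
    rw [glue_cross _ _ _ hu hv, jz_in hu, jz_out hv, hx', jz_in hu, jz_out hv, hr'in u hu,
      hr'out v hv, hT'mk, hφin, hφout v hv, if_neg h4, hγin, hγout v hv, hk _ _ h3, hz]
    have := (hm (r c)).ne'
    field_simp
  have hdata : ∀ u v, r' u ≠ r' v →
      glue p (fun _ => 0) W (jz p y z) s(u, v) = x' u * x' v * T' s(r' u, r' v) := by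
    intro u v huv
    by_cases hu : p u
    · by_cases hv : p v
      · rw [glue_in _ _ _ hu hv, hr'in u hu, hr'in v hv, hT'mk, hφin, hφin, if_pos rfl, mul_zero]
      · exact hcross u v hu hv
    · by_cases hv : p v
      · rw [Sym2.eq_swap, hcross v u hv hu, Sym2.eq_swap, mul_comm (x' v)]
      · have h5 : r u ≠ r v := fun e => huv (by rw [hr'out u hu, hr'out v hv, e])
        rw [glue_out _ _ _ hu hv, hx', jz_out hu, jz_out hv, hr'out u hu, hr'out v hv, hT'mk,
          hφout u hu, hφout v hv, if_neg h5, hγout u hu, hγout v hv, hWT u v h5]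
        ring
  have hx'0 : ∀ v, 0 ≤ x' v := by
    intro v
    by_cases hv : p v
    · rw [hx', jz_in hv]
      exact hy v
    · rw [hx', jz_out hv]
      exact hx v
  have hcard' : (univ.filter fun v => y v ≠ 0).card < (univ.filter fun v => p v ∧ z v ≠ 0).card := by
    refine lt_of_lt_of_le hcard (le_of_eq (congrArg Finset.card ?_))
    ext v
    simp only [mem_filter, mem_univ, true_and, hp]
  have hlt : (univ.filter fun v => x' v ≠ 0).card < n := by
    have e1 : (univ.filter fun v => x' v ≠ 0) =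
        (univ.filter fun v => y v ≠ 0) ∪ (univ.filter fun v => ¬ p v ∧ x v ≠ 0) := by
      ext v
      simp only [mem_union, mem_filter, mem_univ, true_and]
      by_cases hv : p v
      · rw [hx', jz_in hv]
        constructor
        · intro h6
          exact Or.inl h6
        · rintro (h6 | h6)
          · exact h6
          · exact absurd hv h6.1
      · rw [hx', jz_out hv]
        constructor
        · intro h6
          exact Or.inr ⟨hv, h6⟩
        · rintro (h6 | h6)
          · exact absurd (hyp v hv) h6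
          · exact h6.2
    have e2 : (univ.filter fun v => x v ≠ 0) =
        (univ.filter fun v => p v ∧ z v ≠ 0) ∪ (univ.filter fun v => ¬ p v ∧ x v ≠ 0) := by
      ext v
      simp only [mem_union, mem_filter, mem_univ, true_and, hz, ne_eq, mul_eq_zero, (hm (r v)).ne',
        or_false]
      tauto
    have e3 : Disjoint (univ.filter fun v => p v ∧ z v ≠ 0)
        (univ.filter fun v => ¬ p v ∧ x v ≠ 0) := by
      rw [Finset.disjoint_left]
      intro v h6 h7
      rw [mem_filter] at h6 h7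
      exact h7.2.1 h6.2.1
    calc (univ.filter fun v => x' v ≠ 0).card
        ≤ (univ.filter fun v => y v ≠ 0).card + (univ.filter fun v => ¬ p v ∧ x v ≠ 0).card := by
          rw [e1]
          exact Finset.card_union_le _ _
      _ < (univ.filter fun v => p v ∧ z v ≠ 0).card +
          (univ.filter fun v => ¬ p v ∧ x v ≠ 0).card := Nat.add_lt_add_right hcard' _
      _ = n := by rw [← Finset.card_union_of_disjoint e3, ← e2, hn]
  have hfin := ih _ hlt (K ⊕ V) (glue p (fun _ => 0) W (jz p y z)) x' r' T'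
    (glue_nonneg (fun _ => le_refl 0) hW fun v => by
      by_cases hv : p v
      · rw [jz_in hv]
        exact hy v
      · rw [jz_out hv]
        exact hz0 v)
    hx'0 hT'0 hRed hdata rfl a b i v
  have hpa : ¬ p a := (h2 a).mpr ha
  have hpb : ¬ p b := (h2 b).mpr hb
  refine hfin ?_ ?_ ?_ ?_ ?_ ?_ ?_
  · rw [hr'out a hpa, hr'out b hpb]
    exact fun e => hab (Sum.inl_injective e)
  · rw [hr'in i hi, hr'out v hv]
    exact fun e => by cases e
  · rw [hr'out a hpa, hr'out b hpb, hr'in i hi, hr'out v hv]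
    intro e
    rw [Sym2.eq_iff] at e
    rcases e with e | e
    · cases e.1
    · cases e.2
  · rw [hx', jz_out hpa]
    exact hxa
  · rw [hx', jz_out hpb]
    exact hxb
  · rw [hx', jz_in (p := p) hi]
    exact hyi
  · rw [hx', jz_out (p := p) hv]
    exact hxv

/-- All weights between the blocks positive. -/
theorem step_pos (n : ℕ) (ih : ∀ m < n, NCn V m) {K : Type u} [Fintype K] (W : Sym2 V → ℝ)
    (x : V → ℝ) (r : V → K) (T : Sym2 K → ℝ) (hW : ∀ g, 0 ≤ W g) (hx : ∀ v, 0 ≤ x v)
    (hT : ∀ g, 0 < T g) (h : Red T)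
    (hWT : ∀ u v, r u ≠ r v → W s(u, v) = x u * x v * T s(r u, r v))
    (hn : (univ.filter fun v => x v ≠ 0).card = n) {a b c d : V} (hab : r a ≠ r b)
    (hcd : r c ≠ r d) (hne : s(r a, r b) ≠ s(r c, r d)) (hxa : 0 < x a) (hxb : 0 < x b)
    (hxc : 0 < x c) (hxd : 0 < x d) : 0 ≤ Ray W s(a, b) s(c, d) := by
  -- two ends in one part
  have tri : ∀ (k : K → Fin 3) (m : K → ℝ), (∀ v, 0 < m v) →
      (∀ u v, k u ≠ k v → T s(u, v) = m u * m v) → ∀ {a b c d : V}, a ≠ c →
      k (r a) = k (r c) → k (r b) ≠ k (r a) → k (r d) ≠ k (r a) → k (r b) ≠ k (r d) →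
      0 ≤ Ray W s(a, b) s(c, d) := by
    intro k m hm hk a b c d hac h1 h2 h3 h4
    refine ray_tri W hW (fun v => x v * m (r v)) (fun v => mul_nonneg (hx v) (hm _).le)
      (fun v => k (r v)) (fun u v huv => ?_) hac h1 h2 h3 h4
    have h1 : r u ≠ r v := fun e => huv (by simp only [e])
    rw [hWT u v h1, hk _ _ huv]
    ring
  -- two ends in one block
  have same : ∀ {a b c d : V}, r a ≠ r b → r c ≠ r d → s(r a, r b) ≠ s(r c, r d) → r a = r c →
      0 ≤ Ray W s(a, b) s(c, d) := by
    intro a b c d hab hcd hne hac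
    have hbd : r b ≠ r d := fun e => hne (by rw [hac, e])
    by_cases hac' : a = c
    · subst hac'
      exact Pool.Agent.Lib.MP_d90615_co.ray_adj W hW (fun e => hab (by rw [e]))
        (fun e => hcd (by rw [e])) (fun e => hbd (by rw [e]))
    · obtain ⟨k, m, hm, hk, ka, kb, kd⟩ := h.tri hT hab (hac ▸ hcd) hbd
      refine tri k m hm hk hac' (by rw [hac]) ?_ ?_ ?_
      · rw [ka, kb]
        decide
      · rw [ka, kd]
        decide
      · rw [kb, kd]
        decide
  by_cases hac : r a = r c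
  · exact same hab hcd hne hac
  by_cases had : r a = r d
  · rw [Sym2.eq_swap (a := c)]
    exact same hab (Ne.symm hcd) (by rwa [Sym2.eq_swap (a := r d)]) had
  by_cases hbc : r b = r c
  · rw [Sym2.eq_swap (a := a)]
    exact same (Ne.symm hab) hcd (by rwa [Sym2.eq_swap (a := r b)]) hbc
  by_cases hbd : r b = r d
  · rw [Sym2.eq_swap (a := a), Sym2.eq_swap (a := c)]
    exact same (Ne.symm hab) (Ne.symm hcd)
      (by rwa [Sym2.eq_swap (a := r b), Sym2.eq_swap (a := r d)]) hbd
  have hab' : a ≠ b := fun e => hab (by rw [e])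
  have hac' : a ≠ c := fun e => hac (by rw [e])
  have had' : a ≠ d := fun e => had (by rw [e])
  have hbc' : b ≠ c := fun e => hbc (by rw [e])
  have hbd' : b ≠ d := fun e => hbd (by rw [e])
  obtain ⟨k, m, hm, hk, hcase⟩ := h.quad hT hab hac had hbc hbd hcd
  rcases hcase with ⟨k1, k2, k3, k4⟩ | ⟨k1, k2, k3, k4⟩ | ⟨k1, k2, k3, k4⟩ | ⟨k1, k2, k3, k4⟩ |
    ⟨k1, k2, k3, k4⟩ | ⟨k1, k2, k3, k4⟩
  · rw [Pool.Agent.PW.Ray_comm]
    exact step_case2 n ih W x r T hW hx hT h hWT hn k m hm hk hcd k3 k4 k1 k2 hxc hxd hxa hxb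
  · exact step_case2 n ih W x r T hW hx hT h hWT hn k m hm hk hab k3 k4 k1 k2 hxa hxb hxc hxd
  · rw [Sym2.eq_swap (a := a), Sym2.eq_swap (a := c)]
    exact tri k m hm hk hbd' (by rw [k3, k4]) (by rw [k1, k3]; decide) (by rw [k2, k3]; decide)
      (by rw [k1, k2]; decide)
  · exact tri k m hm hk hac' (by rw [k3, k4]) (by rw [k1, k3]; decide) (by rw [k2, k3]; decide)
      (by rw [k1, k2]; decide)
  · rw [Sym2.eq_swap (a := a)]
    exact tri k m hm hk hbc' (by rw [k3, k4]) (by rw [k1, k3]; decide) (by rw [k2, k3]; decide)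
      (by rw [k1, k2]; decide)
  · rw [Sym2.eq_swap (a := c)]
    exact tri k m hm hk had' (by rw [k3, k4]) (by rw [k1, k3]; decide) (by rw [k2, k3]; decide)
      (by rw [k1, k2]; decide)

theorem ncn (n : ℕ) : NCn V n := by
  induction n using Nat.strong_induction_on with
  | _ n ih =>
    intro K _ W x r T hW hx hT h hWT hn a b c d hab hcd hne hxa hxb hxc hxd
    obtain ⟨U, hU1, hU2, hU3⟩ := h.approx hT
    set G : ℕ → Sym2 V → ℝ := fun j g => if (Sym2.map r g).IsDiag then W g
      else pw x g * U j (Sym2.map r g) with hG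
    have hG0 : ∀ j, 0 ≤ Ray (G j) s(a, b) s(c, d) := by
      intro j
      refine step_pos n ih (G j) x r (U j) (fun g => ?_) hx (hU2 j) (hU1 j) (fun u v huv => ?_) hn
        hab hcd hne hxa hxb hxc hxd
      · simp only [hG]
        split_ifs
        · exact hW g
        · refine mul_nonneg ?_ (hU2 j _).le
          induction g using Sym2.ind with
          | _ u v => exact mul_nonneg (hx u) (hx v)
      · simp only [hG, Sym2.map_mk, Sym2.mk_isDiag_iff, if_neg huv, Pool.Agent.PW.pw_mk]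
    have hlim : Filter.Tendsto G Filter.atTop (𝓝 W) := by
      rw [tendsto_pi_nhds]
      intro g
      by_cases hg : (Sym2.map r g).IsDiag
      · simp only [hG, if_pos hg]
        exact tendsto_const_nhds
      · have e : W g = pw x g * T (Sym2.map r g) := by
          induction g using Sym2.ind with
          | _ u v =>
            rw [Sym2.map_mk, Sym2.mk_isDiag_iff] at hg
            exact hWT u v hg
        simp only [hG, if_neg hg]
        rw [e]
        exact (hU3 _).const_mul _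
    exact ge_of_tendsto' (((Pool.Agent.Lib.MP_d90615_co.continuous_Ray s(a, b) s(c, d)).tendsto
      W).comp hlim) hG0

/-- **Edges between the blocks of a graph of rank-width one.**  The weights of the two pairs are
arbitrary. -/
theorem red_ray {K : Type u} [Fintype K] (W : Sym2 V → ℝ) (hW : ∀ g, 0 ≤ W g) (x : V → ℝ)
    (hx : ∀ v, 0 ≤ x v) (r : V → K) (T : Sym2 K → ℝ) (hT : ∀ g, 0 ≤ T g) (h : Red T) {a b c d : V}
    (hab : r a ≠ r b) (hcd : r c ≠ r d) (hne : s(r a, r b) ≠ s(r c, r d))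
    (hWT : ∀ u v, r u ≠ r v → s(u, v) ≠ s(a, b) → s(u, v) ≠ s(c, d) →
      W s(u, v) = x u * x v * T s(r u, r v)) : 0 ≤ Ray W s(a, b) s(c, d) := by
  have hef : s(a, b) ≠ s(c, d) := fun e => hne (by
    have := congrArg (Sym2.map r) e
    rwa [Sym2.map_mk, Sym2.map_mk] at this)
  set G : ℝ → Sym2 V → ℝ := fun ε g => if (Sym2.map r g).IsDiag then W g
    else pw (fun v => x v + ε) g * T (Sym2.map r g) with hG
  have key : ∀ ε : ℝ, 0 < ε → 0 ≤ Ray (G ε) s(a, b) s(c, d) := by
    intro ε hε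
    refine ncn _ K (G ε) (fun v => x v + ε) r T (fun g => ?_)
      (fun v => add_nonneg (hx v) hε.le) hT h (fun u v huv => ?_) rfl a b c d hab hcd hne
      (add_pos_of_nonneg_of_pos (hx _) hε) (add_pos_of_nonneg_of_pos (hx _) hε)
      (add_pos_of_nonneg_of_pos (hx _) hε) (add_pos_of_nonneg_of_pos (hx _) hε)
    · simp only [hG]
      split_ifs
      · exact hW g
      · refine mul_nonneg ?_ (hT _)
        induction g using Sym2.ind with
        | _ u v => exact mul_nonneg (add_nonneg (hx u) hε.le) (add_nonneg (hx v) hε.le)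
    · simp only [hG, Sym2.map_mk, Sym2.mk_isDiag_iff, if_neg huv, Pool.Agent.PW.pw_mk]
  have hcont : Continuous fun ε : ℝ => Ray (G ε) s(a, b) s(c, d) := by
    refine (Pool.Agent.Lib.MP_d90615_co.continuous_Ray s(a, b) s(c, d)).comp ?_
    refine continuous_pi fun g => ?_
    show Continuous fun ε : ℝ => if (Sym2.map r g).IsDiag then W g
      else pw (fun v => x v + ε) g * T (Sym2.map r g)
    by_cases h : (Sym2.map r g).IsDiag
    · simp only [if_pos h]
      exact continuous_const
    · simp only [if_neg h]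
      induction g using Sym2.ind with
      | _ u v =>
        simp only [Pool.Agent.PW.pw_mk]
        fun_prop
  have h1 := (hcont.tendsto 0).mono_left (nhdsWithin_le_nhds (s := Set.Ioi 0))
  have h2 := ge_of_tendsto h1 (by
    filter_upwards [self_mem_nhdsWithin] with ε hε
    exact key ε hε)
  rw [Pool.Agent.PW.Ray_congr (w' := G 0) hef fun g _ hge hgf => ?_]
  · exact h2
  · show W g = if (Sym2.map r g).IsDiag then W g
      else pw (fun v => x v + 0) g * T (Sym2.map r g)
    split_ifs with hg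
    · rfl
    · induction g using Sym2.ind with
      | _ u v =>
        rw [Sym2.map_mk, Sym2.mk_isDiag_iff] at hg
        rw [hWT u v hg hge hgf, Pool.Agent.PW.pw_mk, add_zero, add_zero, Sym2.map_mk]

end

end Pool.Agent.MJ
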